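import Mathlib

set_option autoImplicit false

/-! Polynomials in a list of real functions on the positive half line. -/

namespace Pool.Agent.R813.LV

/-- `h` is on the positive half line a polynomial of degree at most `D` in each of the functions
of the list -/
def Pol : List (ℝ → ℝ) → ℕ → (ℝ → ℝ) → Prop
  | [], _, h => ∃ c : ℝ, ∀ x > 0, h x = c
  | g :: G, D, h => ∃ a : ℕ → ℝ → ℝ, (∀ j, Pol G D (a j)) ∧ (∀ j, D < j → a j = 0) ∧
      ∀ x > 0, h x = ∑ j ∈ Finset.range (D + 1), a j x * g x ^ j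

theorem Pol.congr {G : List (ℝ → ℝ)} {D : ℕ} {h h' : ℝ → ℝ} (H : Pol G D h)
    (e : ∀ x > 0, h' x = h x) : Pol G D h' := by
  cases G with
  | nil => obtain ⟨c, hc⟩ := H; exact ⟨c, fun x hx => by rw [e x hx, hc x hx]⟩
  | cons g G =>
    obtain ⟨a, h1, h2, h3⟩ := H
    exact ⟨a, h1, h2, fun x hx => by rw [e x hx, h3 x hx]⟩

theorem Pol.const (G : List (ℝ → ℝ)) (D : ℕ) (c : ℝ) : Pol G D (fun _ => c) := by
  induction G generalizing c with
  | nil => exact ⟨c, fun _ _ => rfl⟩
  | cons g G ih =>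
    refine ⟨fun j => if j = 0 then fun _ => c else 0, fun j => ?_, fun j hj => ?_, fun x _ => ?_⟩
    · beta_reduce
      split_ifs
      · exact ih c
      · exact ih 0
    · beta_reduce
      rw [if_neg (by omega)]
    · rw [Finset.sum_eq_single 0]
      · simp
      · intro b _ hb; simp [hb]
      · intro hb; simp at hb

theorem Pol.zero (G : List (ℝ → ℝ)) (D : ℕ) : Pol G D (0 : ℝ → ℝ) := Pol.const G D 0

theorem Pol.mono {G : List (ℝ → ℝ)} {D E : ℕ} {h : ℝ → ℝ} (hDE : D ≤ E) (H : Pol G D h) :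
    Pol G E h := by
  induction G generalizing h with
  | nil => exact H
  | cons g G ih =>
    obtain ⟨a, h1, h2, h3⟩ := H
    refine ⟨a, fun j => ih (h1 j), fun j hj => h2 j (by omega), fun x hx => ?_⟩
    rw [h3 x hx]
    apply Finset.sum_subset
    · intro j hj; simp at hj ⊢; omega
    · intro j _ hj
      simp at hj
      rw [h2 j (by omega)]; simp

theorem Pol.mk' {g : ℝ → ℝ} {G : List (ℝ → ℝ)} {D d : ℕ} {h : ℝ → ℝ} (a : ℕ → ℝ → ℝ) (hd : d ≤ D)
    (ha : ∀ j ≤ d, Pol G D (a j)) (hh : ∀ x > 0, h x = ∑ j ∈ Finset.range (d + 1), a j x * g x ^ j) :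
    Pol (g :: G) D h := by
  refine ⟨fun j => if j ≤ d then a j else 0, fun j => ?_, fun j hj => ?_, fun x hx => ?_⟩
  · beta_reduce
    split_ifs with h1
    · exact ha j h1
    · exact Pol.zero G D
  · beta_reduce
    rw [if_neg (by omega)]
  · rw [hh x hx]
    have e : ∀ j ∈ Finset.range (d + 1), a j x * g x ^ j =
        (if j ≤ d then a j else 0 : ℝ → ℝ) x * g x ^ j := by
      intro j hj
      simp at hj
      rw [if_pos (by omega)]
    rw [Finset.sum_congr rfl e]
    apply Finset.sum_subset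
    · intro j hj; simp at hj ⊢; omega
    · intro j _ hj
      simp at hj
      rw [if_neg (by omega)]; simp

theorem Pol.add {G : List (ℝ → ℝ)} {D : ℕ} {h k : ℝ → ℝ} (H : Pol G D h) (K : Pol G D k) :
    Pol G D (fun x => h x + k x) := by
  induction G generalizing h k with
  | nil =>
    obtain ⟨c, hc⟩ := H
    obtain ⟨d, hd⟩ := K
    exact ⟨c + d, fun x hx => by beta_reduce; rw [hc x hx, hd x hx]⟩
  | cons g G ih =>
    obtain ⟨a, h1, h2, h3⟩ := H
    obtain ⟨b, k1, k2, k3⟩ := K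
    refine ⟨fun j x => a j x + b j x, fun j => ih (h1 j) (k1 j), fun j hj => ?_, fun x hx => ?_⟩
    · funext x; simp [h2 j hj, k2 j hj]
    · simp only []
      rw [h3 x hx, k3 x hx, ← Finset.sum_add_distrib]
      exact Finset.sum_congr rfl fun j _ => by ring

theorem Pol.sum {G : List (ℝ → ℝ)} {D : ℕ} {ι : Type*} (s : Finset ι) (f : ι → ℝ → ℝ)
    (H : ∀ i ∈ s, Pol G D (f i)) : Pol G D (fun x => ∑ i ∈ s, f i x) := by
  classical
  induction s using Finset.induction_on with
  | empty => exact (Pol.zero G D).congr fun x _ => by simp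
  | insert i s hi ih =>
    have := (H i (Finset.mem_insert_self _ _)).add (ih fun j hj => H j (Finset.mem_insert_of_mem hj))
    exact this.congr fun x _ => by rw [Finset.sum_insert hi]

theorem cauchy (α β : ℕ → ℝ) (D E : ℕ) (hα : ∀ i, D < i → α i = 0) (hβ : ∀ i, E < i → β i = 0)
    (y : ℝ) : (∑ i ∈ Finset.range (D + 1), α i * y ^ i) * (∑ j ∈ Finset.range (E + 1), β j * y ^ j) =
      ∑ k ∈ Finset.range (D + E + 1), (∑ p ∈ Finset.HasAntidiagonal.antidiagonal k, α p.1 * β p.2) * y ^ k := by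
  set P : Polynomial ℝ := ∑ i ∈ Finset.range (D + 1), Polynomial.monomial i (α i) with hP
  set Q : Polynomial ℝ := ∑ i ∈ Finset.range (E + 1), Polynomial.monomial i (β i) with hQ
  have cP : ∀ i, P.coeff i = α i := by
    intro i
    rw [hP, Polynomial.finsetSum_coeff]
    simp only [Polynomial.coeff_monomial]
    by_cases hi : i ≤ D
    · rw [Finset.sum_eq_single i] <;> simp <;> omega
    · rw [hα i (by omega)]
      apply Finset.sum_eq_zero
      intro j hj
      simp at hj
      rw [if_neg (by omega)]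
  have cQ : ∀ i, Q.coeff i = β i := by
    intro i
    rw [hQ, Polynomial.finsetSum_coeff]
    simp only [Polynomial.coeff_monomial]
    by_cases hi : i ≤ E
    · rw [Finset.sum_eq_single i] <;> simp <;> omega
    · rw [hβ i (by omega)]
      apply Finset.sum_eq_zero
      intro j hj
      simp at hj
      rw [if_neg (by omega)]
  have dP : P.natDegree ≤ D := by
    rw [Polynomial.natDegree_le_iff_coeff_eq_zero]
    intro N hN; rw [cP, hα N hN]
  have dQ : Q.natDegree ≤ E := by
    rw [Polynomial.natDegree_le_iff_coeff_eq_zero]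
    intro N hN; rw [cQ, hβ N hN]
  have e1 : P.eval y = ∑ i ∈ Finset.range (D + 1), α i * y ^ i := by
    rw [Polynomial.eval_eq_sum_range' (n := D + 1) (by omega)]
    exact Finset.sum_congr rfl fun i _ => by rw [cP]
  have e2 : Q.eval y = ∑ i ∈ Finset.range (E + 1), β i * y ^ i := by
    rw [Polynomial.eval_eq_sum_range' (n := E + 1) (by omega)]
    exact Finset.sum_congr rfl fun i _ => by rw [cQ]
  have dPQ : (P * Q).natDegree < D + E + 1 := by
    have := Polynomial.natDegree_mul_le (p := P) (q := Q); omega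
  rw [← e1, ← e2, ← Polynomial.eval_mul, Polynomial.eval_eq_sum_range' dPQ]
  refine Finset.sum_congr rfl fun k _ => ?_
  rw [Polynomial.coeff_mul]
  congr 1
  exact Finset.sum_congr rfl fun p _ => by rw [cP, cQ]

theorem Pol.mul {G : List (ℝ → ℝ)} {D E : ℕ} {h k : ℝ → ℝ} (H : Pol G D h) (K : Pol G E k) :
    Pol G (D + E) (fun x => h x * k x) := by
  induction G generalizing h k with
  | nil =>
    obtain ⟨c, hc⟩ := H
    obtain ⟨d, hd⟩ := K
    exact ⟨c * d, fun x hx => by beta_reduce; rw [hc x hx, hd x hx]⟩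
  | cons g G ih =>
    obtain ⟨a, h1, h2, h3⟩ := H
    obtain ⟨b, k1, k2, k3⟩ := K
    refine Pol.mk' (fun k x => ∑ p ∈ Finset.HasAntidiagonal.antidiagonal k, a p.1 x * b p.2 x) le_rfl
      (fun j _ => Pol.sum _ _ fun p _ => ih (h1 p.1) (k1 p.2)) fun x hx => ?_
    rw [h3 x hx, k3 x hx, cauchy (fun i => a i x) (fun j => b j x) D E
      (fun i hi => by simp [h2 i hi]) (fun i hi => by simp [k2 i hi])]

theorem Pol.cmul {G : List (ℝ → ℝ)} {D : ℕ} {h : ℝ → ℝ} (c : ℝ) (H : Pol G D h) :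
    Pol G D (fun x => c * h x) := by
  have := (Pol.const G 0 c).mul H
  rwa [zero_add] at this

theorem Pol.sub {G : List (ℝ → ℝ)} {D : ℕ} {h k : ℝ → ℝ} (H : Pol G D h) (K : Pol G D k) :
    Pol G D (fun x => h x - k x) :=
  (H.add (K.cmul (-1))).congr fun x _ => by ring

theorem Pol.pow {G : List (ℝ → ℝ)} {D : ℕ} {h : ℝ → ℝ} (H : Pol G D h) (n : ℕ) :
    Pol G (n * D) (fun x => h x ^ n) := by
  induction n with
  | zero => simpa using Pol.const G 0 1
  | succ n ih =>
    have := ih.mul H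
    rw [show (n + 1) * D = n * D + D by ring]
    exact this.congr fun x _ => by rw [pow_succ]

theorem Pol.lift {G : List (ℝ → ℝ)} {D : ℕ} {h : ℝ → ℝ} (g : ℝ → ℝ) (H : Pol G D h) :
    Pol (g :: G) D h :=
  Pol.mk' (d := 0) (fun _ => h) (Nat.zero_le _) (fun _ _ => H) fun x _ => by simp

theorem Pol.append {G : List (ℝ → ℝ)} {D : ℕ} {h : ℝ → ℝ} (L : List (ℝ → ℝ)) (H : Pol G D h) :
    Pol (L ++ G) D h := by
  induction L with
  | nil => exact H
  | cons g L ih => exact ih.lift g

theorem Pol.self (g : ℝ → ℝ) (G : List (ℝ → ℝ)) : Pol (g :: G) 1 g :=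
  Pol.mk' (d := 1) (fun j => if j = 1 then fun _ => 1 else 0) le_rfl (fun j _ => by
    split_ifs
    · exact Pol.const _ _ 1
    · exact Pol.zero _ _) fun x _ => by simp [Finset.sum_range_succ]

/-- A chain of functions. -/
inductive Chain (C : ℕ) : List (ℝ → ℝ) → Prop
  | nil : Chain C []
  | cons {g : ℝ → ℝ} {G : List (ℝ → ℝ)} : Chain C G → AnalyticOnNhd ℝ g (Set.Ioi 0) →
      Pol (g :: G) C (deriv g) →
      (Pol G C (deriv g) ∨ (∃ b, Pol G C b ∧ ∀ x > 0, 0 < g x ∧ deriv g x = b x * g x) ∨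
        (∃ a, Pol G C a ∧ ∀ x > 0, g x * a x = 1)) → Chain C (g :: G)

theorem Pol.analytic {C : ℕ} {G : List (ℝ → ℝ)} (hG : Chain C G) {D : ℕ} {h : ℝ → ℝ}
    (H : Pol G D h) : AnalyticOnNhd ℝ h (Set.Ioi 0) := by
  induction hG generalizing h with
  | nil =>
    obtain ⟨c, hc⟩ := H
    exact (analyticOnNhd_const (v := c)).congr isOpen_Ioi fun x hx => (hc x hx).symm
  | @cons g G hG hg h1 h2 ih =>
    obtain ⟨a, a1, a2, a3⟩ := H
    have : AnalyticOnNhd ℝ (fun x => ∑ j ∈ Finset.range (D + 1), a j x * g x ^ j) (Set.Ioi 0) := by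
      apply Finset.analyticOnNhd_fun_sum
      intro j _
      exact (ih (a1 j)).mul (hg.pow j)
    exact this.congr isOpen_Ioi fun x hx => (a3 x hx).symm

theorem Pol.deriv {C : ℕ} {G : List (ℝ → ℝ)} (hG : Chain C G) {D : ℕ} {h : ℝ → ℝ}
    (H : Pol G D h) : Pol G (D + C) (deriv h) := by
  induction hG generalizing h with
  | nil =>
    obtain ⟨c, hc⟩ := H
    refine ⟨0, fun x hx => ?_⟩
    have : h =ᶠ[nhds x] fun _ => c := by
      filter_upwards [Ioi_mem_nhds hx] with y hy using hc y hy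
    rw [this.deriv_eq, deriv_const]
  | @cons g G hG hg h1 h2 ih =>
    obtain ⟨a, a1, a2, a3⟩ := H
    have S1 : Pol (g :: G) (D + C) (fun x => ∑ j ∈ Finset.range (D + 1), _root_.deriv (a j) x * g x ^ j) :=
      Pol.mk' (d := D) (fun j => _root_.deriv (a j)) (by omega) (fun j _ => ih (a1 j)) fun x _ => rfl
    have S2 : Pol (g :: G) D (fun x => ∑ j ∈ Finset.range (D + 1), ((j + 1 : ℕ) : ℝ) * a (j + 1) x * g x ^ j) :=
      Pol.mk' (d := D) (fun j x => ((j + 1 : ℕ) : ℝ) * a (j + 1) x) le_rfl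
        (fun j _ => (a1 (j + 1)).cmul _) fun x _ => rfl
    refine (S1.add (S2.mul h1)).congr fun x hx => ?_
    have e : h =ᶠ[nhds x] fun x => ∑ j ∈ Finset.range (D + 1), a j x * g x ^ j := by
      filter_upwards [Ioi_mem_nhds hx] with y hy using a3 y hy
    have dg : DifferentiableAt ℝ g x := (hg x hx).differentiableAt
    have da : ∀ j, DifferentiableAt ℝ (a j) x := fun j =>
      (((a1 j).analytic hG) x hx).differentiableAt
    rw [e.deriv_eq, deriv_fun_sum (A := fun j x => a j x * g x ^ j) (fun j _ => (da j).fun_mul (dg.fun_pow j))]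
    have e2 : ∀ j ∈ Finset.range (D + 1), _root_.deriv (fun x => a j x * g x ^ j) x =
        _root_.deriv (a j) x * g x ^ j + a j x * (j * g x ^ (j - 1) * _root_.deriv g x) := by
      intro j _
      rw [deriv_fun_mul (da j) (dg.fun_pow j), deriv_fun_pow dg]
    rw [Finset.sum_congr rfl e2, Finset.sum_add_distrib]
    congr 1
    rw [Finset.sum_mul, Finset.sum_range_succ']
    have z : a (D + 1) = 0 := a2 _ (by omega)
    conv_rhs => rw [Finset.sum_range_succ]
    rw [z]
    simp only [Nat.cast_zero, zero_mul, mul_zero, add_zero, Pi.zero_apply]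
    refine Finset.sum_congr rfl fun j _ => ?_
    simp only [Nat.add_sub_cancel]
    ring

theorem Chain.mono {C C' : ℕ} {G : List (ℝ → ℝ)} (h : C ≤ C') (hG : Chain C G) : Chain C' G := by
  induction hG with
  | nil => exact Chain.nil
  | @cons g G hG hg h1 h2 ih =>
    refine Chain.cons ih hg (h1.mono h) ?_
    rcases h2 with h2 | ⟨b, hb, h2⟩ | ⟨a, ha, h2⟩
    · exact Or.inl (h2.mono h)
    · exact Or.inr (Or.inl ⟨b, hb.mono h, h2⟩)
    · exact Or.inr (Or.inr ⟨a, ha.mono h, h2⟩)

end Pool.Agent.R813.LV
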