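import Mathlib
import Pool.Agent.R813.LV.Pol

set_option autoImplicit false

/-! Bounds for the number of zeros of polynomials in a chain (Rolle). -/

namespace Pool.Agent.R813.LV

/-- at most `n` zeros on the positive half line -/
def ZB (h : ℝ → ℝ) (n : ℕ) : Prop := ∀ s : Finset ℝ, (∀ x ∈ s, 0 < x ∧ h x = 0) → s.card ≤ n

/-- identically zero or at most `n` zeros -/
def ZN (h : ℝ → ℝ) (n : ℕ) : Prop := (∀ x > 0, h x = 0) ∨ ZB h n

theorem ZB.finset {h : ℝ → ℝ} {n : ℕ} (H : ZB h n) :
    ∃ Z : Finset ℝ, Z.card ≤ n ∧ ∀ x, x ∈ Z ↔ 0 < x ∧ h x = 0 := by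
  have hfin : {x : ℝ | 0 < x ∧ h x = 0}.Finite := by
    by_contra hinf
    obtain ⟨t, ht, hc⟩ := Set.Infinite.exists_subset_card_eq hinf (n + 1)
    have := H t (fun x hx => ht hx)
    omega
  exact ⟨hfin.toFinset, H _ (by simp), by simp⟩

theorem ZN.mono {h : ℝ → ℝ} {m n : ℕ} (hmn : m ≤ n) (H : ZN h m) : ZN h n :=
  H.imp id fun K s hs => (K s hs).trans hmn

theorem ZN.transfer {h k : ℝ → ℝ} {n : ℕ} (H : ZN h n) (e : ∀ x > 0, k x = 0 ↔ h x = 0) :
    ZN k n := by
  rcases H with H | H
  · exact Or.inl fun x hx => (e x hx).2 (H x hx)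
  · exact Or.inr fun s hs => H s fun x hx => ⟨(hs x hx).1, (e x (hs x hx).1).1 (hs x hx).2⟩

theorem rolle {a P : ℝ → ℝ} (ha : AnalyticOnNhd ℝ a (Set.Ioi 0))
    (hP : AnalyticOnNhd ℝ P (Set.Ioi 0)) {z w : ℕ} (hz : ZB a z)
    (hw : ZN (fun x => deriv P x * a x - P x * deriv a x) w) : ZN P (w + 2 * z + 1) := by
  classical
  obtain ⟨Za, cZa, mZa⟩ := hz.finset
  by_cases hP0 : ∀ x > 0, P x = 0
  · exact Or.inl hP0
  right
  intro s hs
  set t := s.filter (fun x => x ∉ Za) with ht
  have h1 : s.card ≤ z + t.card := by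
    rw [← Finset.card_filter_add_card_filter_not (s := s) (fun x => x ∈ Za)]
    have : (s.filter fun x => x ∈ Za).card ≤ z :=
      (Finset.card_le_card (fun x hx => (Finset.mem_filter.1 hx).2)).trans cZa
    exact Nat.add_le_add_right this _
  have ht' : ∀ x ∈ t, 0 < x ∧ P x = 0 ∧ a x ≠ 0 := by
    intro x hx
    obtain ⟨hx1, hx2⟩ := Finset.mem_filter.1 hx
    obtain ⟨h0, hPx⟩ := hs x hx1
    exact ⟨h0, hPx, fun h => hx2 ((mZa x).2 ⟨h0, h⟩)⟩
  have dP : ∀ x > 0, DifferentiableAt ℝ P x := fun x hx => (hP x hx).differentiableAt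
  have da : ∀ x > 0, DifferentiableAt ℝ a x := fun x hx => (ha x hx).differentiableAt
  have dq : ∀ x > 0, a x ≠ 0 → deriv (fun u => P u / a u) x =
      (deriv P x * a x - P x * deriv a x) / a x ^ 2 := fun x hx hax =>
    deriv_fun_div (dP x hx) (da x hx) hax
  rcases hw with hw | hw
  · have : t = ∅ := by
      rw [Finset.eq_empty_iff_forall_notMem]
      intro x hx
      obtain ⟨hx0, hPx, hax⟩ := ht' x hx
      apply hP0
      have hne : ∀ᶠ u in nhds x, 0 < u ∧ a u ≠ 0 :=
        Filter.Eventually.and (Ioi_mem_nhds hx0) ((da x hx0).continuousAt.eventually_ne hax)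
      obtain ⟨ε, hε, hball⟩ := Metric.eventually_nhds_iff_ball.1 hne
      have hc : ∀ y ∈ Metric.ball x ε, P y / a y = P x / a x := by
        intro y hy
        refine Metric.isOpen_ball.is_const_of_deriv_eq_zero (s := Metric.ball x ε)
          (f := fun u => P u / a u) (convex_ball x ε).isPreconnected ?_ ?_ hy
          (Metric.mem_ball_self hε)
        · intro u hu
          obtain ⟨hu0, hu1⟩ := hball u hu
          exact ((dP u hu0).fun_div (da u hu0) hu1).differentiableWithinAt
        · intro u hu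
          obtain ⟨hu0, hu1⟩ := hball u hu
          have hw' : deriv P u * a u - P u * deriv a u = 0 := hw u hu0
          rw [dq u hu0 hu1, hw']
          simp
      have hev : P =ᶠ[nhds x] 0 := by
        filter_upwards [Metric.ball_mem_nhds x hε] with y hy
        have := hc y hy
        rw [hPx, zero_div, div_eq_zero_iff] at this
        exact this.resolve_right (hball y hy).2
      intro y hy
      exact hP.eqOn_zero_of_preconnected_of_eventuallyEq_zero isPreconnected_Ioi
        (show x ∈ Set.Ioi (0:ℝ) from hx0) hev (show y ∈ Set.Ioi (0:ℝ) from hy)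
    rw [this] at h1
    simp at h1
    omega
  · obtain ⟨Zw, cZw, mZw⟩ := hw.finset
    have h2 : t.card ≤ (Za ∪ Zw).card + 1 := by
      apply Finset.card_le_of_interleaved
      intro x hx y hy hxy _
      obtain ⟨hx0, hPx, hax⟩ := ht' x hx
      obtain ⟨hy0, hPy, hay⟩ := ht' y hy
      by_cases h : ∃ u, x < u ∧ u < y ∧ a u = 0
      · obtain ⟨u, h3, h4, h5⟩ := h
        exact ⟨u, Finset.mem_union_left _ ((mZa u).2 ⟨by linarith, h5⟩), h3, h4⟩
      · have hne : ∀ u ∈ Set.Icc x y, a u ≠ 0 := by
          intro u hu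
          rcases eq_or_lt_of_le hu.1 with h3 | h3
          · rw [← h3]; exact hax
          rcases eq_or_lt_of_le hu.2 with h4 | h4
          · rw [h4]; exact hay
          intro h5
          exact h ⟨u, h3, h4, h5⟩
        have hcont : ContinuousOn (fun u => P u / a u) (Set.Icc x y) := by
          intro u hu
          have hu0 : 0 < u := by linarith [hu.1]
          exact ((dP u hu0).fun_div (da u hu0) (hne u hu)).continuousAt.continuousWithinAt
        obtain ⟨u, hu, hu2⟩ := exists_deriv_eq_zero hxy hcont (by simp [hPx, hPy])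
        have hu0 : 0 < u := by linarith [hu.1]
        have hau := hne u (Set.Ioo_subset_Icc_self hu)
        rw [dq u hu0 hau, div_eq_zero_iff] at hu2
        have hu3 := hu2.resolve_right (pow_ne_zero 2 hau)
        exact ⟨u, Finset.mem_union_right _ ((mZw u).2 ⟨hu0, hu3⟩), hu.1, hu.2⟩
    have h3 := Finset.card_union_le Za Zw
    omega

/-- the growth function -/
def T (x : ℕ) : ℕ := 2 ^ x * x + 2 * x ^ 2 + 2 * x

theorem T_mono : Monotone T := by
  intro a b h
  unfold T
  have : 2 ^ a ≤ 2 ^ b := Nat.pow_le_pow_right (by norm_num) h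
  gcongr

theorem le_T (x : ℕ) : x ≤ T x := by
  unfold T
  have := Nat.zero_le (2 ^ x * x)
  have := Nat.zero_le (x ^ 2)
  omega

theorem NB_mono (n : ℕ) : Monotone T^[n] := T_mono.iterate n

theorem le_NB (n x : ℕ) : x ≤ T^[n] x := by
  induction n with
  | zero => exact le_rfl
  | succ n ih => rw [Function.iterate_succ_apply']; exact ih.trans (le_T _)

theorem NB_succ (r x : ℕ) : T^[2 * (r + 1)] x = T (T^[2 * r] (T x)) := by
  rw [show 2 * (r + 1) = (2 * r + 1) + 1 by ring, Function.iterate_succ_apply',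
    Function.iterate_succ_apply]

theorem deriv_sum {g P : ℝ → ℝ} {a : ℕ → ℝ → ℝ} {d : ℕ} (hg : ∀ x > 0, DifferentiableAt ℝ g x)
    (ha : ∀ j, ∀ x > 0, DifferentiableAt ℝ (a j) x)
    (hP : ∀ x > 0, P x = ∑ j ∈ Finset.range (d + 1), a j x * g x ^ j) {x : ℝ} (hx : 0 < x) :
    deriv P x = ∑ j ∈ Finset.range (d + 1), deriv (a j) x * g x ^ j +
      ∑ j ∈ Finset.range d, ((j + 1 : ℕ) : ℝ) * a (j + 1) x * g x ^ j * deriv g x := by
  have e : P =ᶠ[nhds x] fun x => ∑ j ∈ Finset.range (d + 1), a j x * g x ^ j := by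
    filter_upwards [Ioi_mem_nhds hx] with y hy using hP y hy
  have dg := hg x hx
  rw [e.deriv_eq, deriv_fun_sum (A := fun j x => a j x * g x ^ j)
    (fun j _ => (ha j x hx).fun_mul (dg.fun_pow j))]
  have e2 : ∀ j ∈ Finset.range (d + 1), deriv (fun x => a j x * g x ^ j) x =
      deriv (a j) x * g x ^ j + a j x * (j * g x ^ (j - 1) * deriv g x) := by
    intro j _
    rw [deriv_fun_mul (ha j x hx) (dg.fun_pow j), deriv_fun_pow dg]
  rw [Finset.sum_congr rfl e2, Finset.sum_add_distrib]
  congr 1
  rw [Finset.sum_range_succ']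
  simp only [Nat.cast_zero, zero_mul, mul_zero, add_zero]
  refine Finset.sum_congr rfl fun j _ => ?_
  simp only [Nat.add_sub_cancel]
  ring

theorem step_x {C r : ℕ} {G : List (ℝ → ℝ)} (hG : Chain C G) {g : ℝ → ℝ}
    (hg : AnalyticOnNhd ℝ g (Set.Ioi 0)) (hg' : Pol G C (deriv g))
    (ih : ∀ (D : ℕ) (h : ℝ → ℝ), Pol G D h → ZN h (T^[r] (D + C))) (d : ℕ) :
    ∀ (E : ℕ) (P : ℝ → ℝ) (a : ℕ → ℝ → ℝ), (∀ j, Pol G E (a j)) →
      (∀ x > 0, P x = ∑ j ∈ Finset.range (d + 1), a j x * g x ^ j) →
      ZN P (d * (2 * T^[r] (2 ^ d * (E + C)) + 1) + T^[r] (2 ^ d * (E + C))) := by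
  induction d with
  | zero =>
    intro E P a ha hP
    refine ((ih E _ (ha 0)).transfer (k := P) fun x hx => ?_).mono (by simp)
    rw [hP x hx]; simp
  | succ d ihd =>
    intro E P a ha hP
    have m1 : 2 ^ d * (E + C) ≤ 2 ^ (d + 1) * (E + C) := by
      rw [pow_succ]; nlinarith [Nat.zero_le (2 ^ d * (E + C))]
    have m2 := NB_mono r m1
    have m3 : T^[r] (E + C) ≤ T^[r] (2 ^ (d + 1) * (E + C)) := by
      apply NB_mono r
      nlinarith [Nat.one_le_two_pow (n := d + 1), Nat.zero_le (E + C)]
    rcases ih E _ (ha (d + 1)) with h0 | h0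
    · refine (ihd E P a ha fun x hx => ?_).mono ?_
      · rw [hP x hx, Finset.sum_range_succ, h0 x hx]; simp
      · nlinarith
    · have da : ∀ j, ∀ x > 0, DifferentiableAt ℝ (a j) x := fun j x hx =>
        (((ha j).analytic hG) x hx).differentiableAt
      have dg : ∀ x > 0, DifferentiableAt ℝ g x := fun x hx => (hg x hx).differentiableAt
      have aP : AnalyticOnNhd ℝ P (Set.Ioi 0) := by
        have : AnalyticOnNhd ℝ (fun x => ∑ j ∈ Finset.range (d + 1 + 1), a j x * g x ^ j)
            (Set.Ioi 0) := by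
          apply Finset.analyticOnNhd_fun_sum
          intro j _
          exact ((ha j).analytic hG).mul (hg.pow j)
        exact this.congr isOpen_Ioi fun x hx => (hP x hx).symm
      have hW := ihd (2 * E + C) (fun x => deriv P x * a (d + 1) x - P x * deriv (a (d + 1)) x)
        (fun i x => deriv (a i) x * a (d + 1) x - a i x * deriv (a (d + 1)) x +
          ((i + 1 : ℕ) : ℝ) * (a (i + 1) x * (deriv g x * a (d + 1) x))) (fun j => by
            have t1 : Pol G (2 * E + C) (fun x => deriv (a j) x * a (d + 1) x) :=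
              (((ha j).deriv hG).mul (ha (d + 1))).mono (by omega)
            have t2 : Pol G (2 * E + C) (fun x => a j x * deriv (a (d + 1)) x) :=
              ((ha j).mul ((ha (d + 1)).deriv hG)).mono (by omega)
            have t3 : Pol G (2 * E + C) (fun x => a (j + 1) x * (deriv g x * a (d + 1) x)) :=
              ((ha (j + 1)).mul (hg'.mul (ha (d + 1)))).mono (by omega)
            exact (t1.sub t2).add (t3.cmul _)) (fun x hx => by
          rw [deriv_sum dg da hP hx, hP x hx]
          rw [Finset.sum_range_succ (fun j => deriv (a j) x * g x ^ j),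
            Finset.sum_range_succ (fun j => a j x * g x ^ j)]
          have e3 : (∑ i ∈ Finset.range (d + 1), (deriv (a i) x * a (d + 1) x -
              a i x * deriv (a (d + 1)) x + ((i + 1 : ℕ) : ℝ) * (a (i + 1) x *
              (deriv g x * a (d + 1) x))) * g x ^ i) =
              (∑ i ∈ Finset.range (d + 1), deriv (a i) x * g x ^ i) * a (d + 1) x -
              (∑ i ∈ Finset.range (d + 1), a i x * g x ^ i) * deriv (a (d + 1)) x +
              (∑ i ∈ Finset.range (d + 1), ((i + 1 : ℕ) : ℝ) * a (i + 1) x * g x ^ i * deriv g x) *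
                a (d + 1) x := by
            rw [Finset.sum_mul, Finset.sum_mul, Finset.sum_mul, ← Finset.sum_sub_distrib,
              ← Finset.sum_add_distrib]
            exact Finset.sum_congr rfl fun i _ => by ring
          rw [e3]
          ring)
      refine (rolle ((ha (d + 1)).analytic hG) aP h0 hW).mono ?_
      have e4 : 2 ^ d * (2 * E + C + C) = 2 ^ (d + 1) * (E + C) := by rw [pow_succ]; ring
      rw [e4]
      nlinarith

theorem step_e {C r : ℕ} {G : List (ℝ → ℝ)} (hG : Chain C G) {g b : ℝ → ℝ}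
    (hg : AnalyticOnNhd ℝ g (Set.Ioi 0)) (hb : Pol G C b)
    (hgb : ∀ x > 0, 0 < g x ∧ deriv g x = b x * g x)
    (ih : ∀ (D : ℕ) (h : ℝ → ℝ), Pol G D h → ZN h (T^[r] (D + C))) (d : ℕ) :
    ∀ (E : ℕ) (P : ℝ → ℝ) (a : ℕ → ℝ → ℝ), (∀ j, Pol G E (a j)) →
      (∀ x > 0, P x = ∑ j ∈ Finset.range (d + 1), a j x * g x ^ j) →
      ZN P (d * (2 * T^[r] (2 ^ d * (E + C)) + 1) + T^[r] (2 ^ d * (E + C))) := by
  induction d with
  | zero =>
    intro E P a ha hP
    refine ((ih E _ (ha 0)).transfer (k := P) fun x hx => ?_).mono (by simp)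
    rw [hP x hx]; simp
  | succ d ihd =>
    intro E P a ha hP
    have m1 : 2 ^ d * (E + C) ≤ 2 ^ (d + 1) * (E + C) := by
      rw [pow_succ]; nlinarith [Nat.zero_le (2 ^ d * (E + C))]
    have m2 := NB_mono r m1
    have m3 : T^[r] (E + C) ≤ T^[r] (2 ^ (d + 1) * (E + C)) := by
      apply NB_mono r
      nlinarith [Nat.one_le_two_pow (n := d + 1), Nat.zero_le (E + C)]
    rcases ih E _ (ha 0) with h0 | h0
    · have hP1 := ihd E (fun x => ∑ j ∈ Finset.range (d + 1), a (j + 1) x * g x ^ j)
        (fun j => a (j + 1)) (fun j => ha (j + 1)) fun x _ => rfl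
      refine (hP1.transfer (k := P) fun x hx => ?_).mono ?_
      · have e : P x = g x * ∑ j ∈ Finset.range (d + 1), a (j + 1) x * g x ^ j := by
          rw [hP x hx, Finset.sum_range_succ', h0 x hx, Finset.mul_sum]
          simp only [zero_mul, add_zero]
          exact Finset.sum_congr rfl fun i _ => by ring
        rw [e, mul_eq_zero]
        exact ⟨fun h => h.resolve_left (hgb x hx).1.ne', fun h => Or.inr h⟩
      · nlinarith
    · have da : ∀ j, ∀ x > 0, DifferentiableAt ℝ (a j) x := fun j x hx =>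
        (((ha j).analytic hG) x hx).differentiableAt
      have dg : ∀ x > 0, DifferentiableAt ℝ g x := fun x hx => (hg x hx).differentiableAt
      have aP : AnalyticOnNhd ℝ P (Set.Ioi 0) := by
        have : AnalyticOnNhd ℝ (fun x => ∑ j ∈ Finset.range (d + 1 + 1), a j x * g x ^ j)
            (Set.Ioi 0) := by
          apply Finset.analyticOnNhd_fun_sum
          intro j _
          exact ((ha j).analytic hG).mul (hg.pow j)
        exact this.congr isOpen_Ioi fun x hx => (hP x hx).symm
      have hQ := ihd (2 * E + C) (fun x => ∑ i ∈ Finset.range (d + 1),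
          (deriv (a (i + 1)) x * a 0 x - a (i + 1) x * deriv (a 0) x +
          ((i + 1 : ℕ) : ℝ) * (a (i + 1) x * (b x * a 0 x))) * g x ^ i)
        (fun i x => deriv (a (i + 1)) x * a 0 x - a (i + 1) x * deriv (a 0) x +
          ((i + 1 : ℕ) : ℝ) * (a (i + 1) x * (b x * a 0 x))) (fun j => by
            have t1 : Pol G (2 * E + C) (fun x => deriv (a (j + 1)) x * a 0 x) :=
              (((ha (j + 1)).deriv hG).mul (ha 0)).mono (by omega)
            have t2 : Pol G (2 * E + C) (fun x => a (j + 1) x * deriv (a 0) x) :=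
              ((ha (j + 1)).mul ((ha 0).deriv hG)).mono (by omega)
            have t3 : Pol G (2 * E + C) (fun x => a (j + 1) x * (b x * a 0 x)) :=
              ((ha (j + 1)).mul (hb.mul (ha 0))).mono (by omega)
            exact (t1.sub t2).add (t3.cmul _)) (fun x _ => rfl)
      have hW : ZN (fun x => deriv P x * a 0 x - P x * deriv (a 0) x)
          (d * (2 * T^[r] (2 ^ d * (2 * E + C + C)) + 1) + T^[r] (2 ^ d * (2 * E + C + C))) := by
        refine hQ.transfer fun x hx => ?_
        obtain ⟨gp, gd⟩ := hgb x hx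
        have e : deriv P x * a 0 x - P x * deriv (a 0) x = g x * ∑ i ∈ Finset.range (d + 1),
            (deriv (a (i + 1)) x * a 0 x - a (i + 1) x * deriv (a 0) x +
            ((i + 1 : ℕ) : ℝ) * (a (i + 1) x * (b x * a 0 x))) * g x ^ i := by
          rw [deriv_sum dg da hP hx, hP x hx]
          rw [Finset.sum_range_succ' (fun j => deriv (a j) x * g x ^ j),
            Finset.sum_range_succ' (fun j => a j x * g x ^ j), gd]
          have e3 : g x * (∑ i ∈ Finset.range (d + 1), (deriv (a (i + 1)) x * a 0 x -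
              a (i + 1) x * deriv (a 0) x + ((i + 1 : ℕ) : ℝ) * (a (i + 1) x *
              (b x * a 0 x))) * g x ^ i) =
              (∑ i ∈ Finset.range (d + 1), deriv (a (i + 1)) x * g x ^ (i + 1)) * a 0 x -
              (∑ i ∈ Finset.range (d + 1), a (i + 1) x * g x ^ (i + 1)) * deriv (a 0) x +
              (∑ i ∈ Finset.range (d + 1), ((i + 1 : ℕ) : ℝ) * a (i + 1) x * g x ^ i *
                (b x * g x)) * a 0 x := by
            rw [Finset.sum_mul, Finset.sum_mul, Finset.sum_mul, ← Finset.sum_sub_distrib,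
              ← Finset.sum_add_distrib, Finset.mul_sum]
            exact Finset.sum_congr rfl fun i _ => by ring
          rw [e3]
          ring
        rw [e, mul_eq_zero]
        exact ⟨fun h => h.resolve_left gp.ne', fun h => Or.inr h⟩
      refine (rolle ((ha 0).analytic hG) aP h0 hW).mono ?_
      have e4 : 2 ^ d * (2 * E + C + C) = 2 ^ (d + 1) * (E + C) := by rw [pow_succ]; ring
      rw [e4]
      nlinarith

theorem main_zero {C : ℕ} {G : List (ℝ → ℝ)} (hG : Chain C G) :
    ∀ (D : ℕ) (h : ℝ → ℝ), Pol G D h → ZN h (T^[2 * G.length] (D + C)) := by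
  induction hG with
  | nil =>
    rintro D h ⟨c, hc⟩
    by_cases h0 : c = 0
    · exact Or.inl fun x hx => by rw [hc x hx, h0]
    · right
      intro s hs
      have : s = ∅ := by
        rw [Finset.eq_empty_iff_forall_notMem]
        intro x hx
        obtain ⟨h1, h2⟩ := hs x hx
        exact h0 (by rw [← hc x h1, h2])
      rw [this]; simp
  | @cons g G hG hg h1 h2 ih =>
    intro D h hh
    rw [List.length_cons, NB_succ]
    have hx1 : 2 ^ D * (D + C) ≤ T (D + C) := by
      unfold T
      have : 2 ^ D ≤ 2 ^ (D + C) := Nat.pow_le_pow_right (by norm_num) (by omega)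
      nlinarith
    have hY := NB_mono (2 * G.length) hx1
    have hD : D ≤ T^[2 * G.length] (T (D + C)) :=
      (Nat.le_add_right D C).trans ((le_T _).trans (le_NB _ _))
    have key : D * (2 * T^[2 * G.length] (2 ^ D * (D + C)) + 1) + T^[2 * G.length] (2 ^ D * (D + C)) ≤
        T (T^[2 * G.length] (T (D + C))) := by
      set Y := T^[2 * G.length] (2 ^ D * (D + C))
      set Y' := T^[2 * G.length] (T (D + C))
      have : 2 * Y' ^ 2 + 2 * Y' ≤ T Y' := by unfold T; nlinarith [Nat.zero_le (2 ^ Y' * Y')]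
      nlinarith
    obtain ⟨a, a1, a2, a3⟩ := hh
    rcases h2 with h2 | ⟨b, hb, h2⟩ | ⟨s, hs, h2⟩
    · exact (step_x hG hg h2 ih D D h a a1 a3).mono key
    · exact (step_e hG hg hb h2 ih D D h a a1 a3).mono key
    · have hQ : Pol G (D + D * C) (fun x => ∑ j ∈ Finset.range (D + 1), a j x * s x ^ (D - j)) :=
        Pol.sum _ _ fun j hj => ((a1 j).mul (hs.pow (D - j))).mono (by
          have : (D - j) * C ≤ D * C := Nat.mul_le_mul_right _ (by omega)
          omega)
      refine ((ih _ _ hQ).transfer (k := h) fun x hx => ?_).mono ?_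
      · have hgs := h2 x hx
        have hs0 : s x ≠ 0 := right_ne_zero_of_mul (by rw [hgs]; exact one_ne_zero)
        have e : (∑ j ∈ Finset.range (D + 1), a j x * s x ^ (D - j)) = h x * s x ^ D := by
          rw [a3 x hx, Finset.sum_mul]
          refine Finset.sum_congr rfl fun j hj => ?_
          simp at hj
          have : s x ^ D = s x ^ j * s x ^ (D - j) := by rw [← pow_add]; congr 1; omega
          rw [this]
          have : g x ^ j * s x ^ j = 1 := by rw [← mul_pow, hgs, one_pow]
          calc a j x * s x ^ (D - j) = a j x * (g x ^ j * s x ^ j) * s x ^ (D - j) := by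
                rw [this, mul_one]
            _ = _ := by ring
        rw [e, mul_eq_zero]
        exact ⟨fun h => Or.inl h, fun h => h.resolve_right (pow_ne_zero _ hs0)⟩
      · have h3 : D + D * C + C ≤ T (D + C) := by
          unfold T
          have e1 := Nat.zero_le (2 ^ (D + C) * (D + C))
          have e2 : D * C ≤ 2 * (D + C) ^ 2 := by nlinarith [Nat.zero_le (D * C), Nat.zero_le (D * D), Nat.zero_le (C * C)]
          omega
        exact (NB_mono _ h3).trans (le_T _)

end Pool.Agent.R813.LV
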