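import Mathlib
import Pool.Agent.R813.LV.Zero

set_option autoImplicit false

/-! Skolem terms and the bound for the number of coincidences. -/

namespace Pool.Agent.R813.LV

/-- Skolem terms -/
inductive Tm
  | one | var
  | add (s t : Tm) | mul (s t : Tm) | pow (s t : Tm)

/-- the function of a term -/
def Tm.ev : Tm → ℕ → ℕ
  | .one, _ => 1
  | .var, n => n
  | .add s t, n => s.ev n + t.ev n
  | .mul s t, n => s.ev n * t.ev n
  | .pow s t, n => s.ev n ^ t.ev n

def Tm.size : Tm → ℕ
  | .one => 1
  | .var => 1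
  | .add s t => s.size + t.size + 1
  | .mul s t => s.size + t.size + 1
  | .pow s t => s.size + t.size + 1

/-- the real function of a term -/
noncomputable def Tm.tr : Tm → ℝ → ℝ
  | .one => fun _ => 1
  | .var => fun x => x
  | .add s t => fun x => s.tr x + t.tr x
  | .mul s t => fun x => s.tr x * t.tr x
  | .pow s t => fun x => Real.exp (t.tr x * Real.log (s.tr x))

theorem Tm.ev_pos (t : Tm) {n : ℕ} (hn : 1 ≤ n) : 1 ≤ t.ev n := by
  induction t with
  | one => exact le_rfl
  | var => exact hn
  | add s t hs ht => simp only [Tm.ev]; omega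
  | mul s t hs ht => exact Nat.mul_pos hs ht
  | pow s t hs ht => exact Nat.pow_pos hs

theorem Tm.tr_ev (t : Tm) {n : ℕ} (hn : 1 ≤ n) : t.tr (n : ℝ) = (t.ev n : ℝ) := by
  induction t with
  | one => simp [Tm.tr, Tm.ev]
  | var => simp [Tm.tr, Tm.ev]
  | add s t hs ht => simp [Tm.tr, Tm.ev, hs, ht]
  | mul s t hs ht => simp [Tm.tr, Tm.ev, hs, ht]
  | pow s t hs ht =>
    simp only [Tm.tr, Tm.ev, hs, ht]
    have : (0 : ℝ) < (s.ev n : ℝ) := by exact_mod_cast s.ev_pos hn
    rw [Real.exp_nat_mul, Real.exp_log this]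
    push_cast
    rfl

theorem build (C : ℕ) (t : Tm) : 2 * t.size + 3 ≤ C → ∀ G : List (ℝ → ℝ), Chain C G →
    Pol G 1 (fun x => x) → ∃ L : List (ℝ → ℝ), Chain C (L ++ G) ∧ L.length ≤ 3 * t.size ∧
      Pol (L ++ G) t.size t.tr ∧ Pol (L ++ G) (2 * t.size) (deriv t.tr) ∧ ∀ x > 0, 0 < t.tr x := by
  induction t with
  | one =>
    intro _ G hG _
    refine ⟨[], hG, by simp, Pol.const _ _ 1, ?_, fun x _ => one_pos⟩
    have : deriv (Tm.one.tr) = fun _ => 0 := by
      funext x; exact deriv_const x (1 : ℝ)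
    rw [this]
    exact Pol.const _ _ 0
  | var =>
    intro _ G hG hx
    refine ⟨[], hG, by simp, hx, ?_, fun x hx => hx⟩
    have : deriv (Tm.var.tr) = fun _ => 1 := by
      funext x; exact deriv_id x
    rw [this]
    exact Pol.const _ _ 1
  | add s t ihs iht =>
    intro hC G hG hx
    simp only [Tm.size] at hC
    obtain ⟨L1, c1, l1, p1, d1, q1⟩ := ihs (by omega) G hG hx
    obtain ⟨L2, c2, l2, p2, d2, q2⟩ := iht (by omega) (L1 ++ G) c1 (hx.append L1)
    refine ⟨L2 ++ L1, by rwa [List.append_assoc], by simp [Tm.size]; omega, ?_, ?_, fun x hx =>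
      add_pos (q1 x hx) (q2 x hx)⟩
    · rw [List.append_assoc]
      exact ((p1.append L2).mono (by simp [Tm.size]; omega)).add (p2.mono (by simp [Tm.size]; omega))
    · rw [List.append_assoc]
      refine (((d1.append L2).mono (by simp [Tm.size]; omega)).add
        (d2.mono (by simp [Tm.size]; omega))).congr fun x hx => ?_
      exact deriv_fun_add (((p1.append L2).analytic c2) x hx).differentiableAt
        ((p2.analytic c2) x hx).differentiableAt
  | mul s t ihs iht =>
    intro hC G hG hx
    simp only [Tm.size] at hC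
    obtain ⟨L1, c1, l1, p1, d1, q1⟩ := ihs (by omega) G hG hx
    obtain ⟨L2, c2, l2, p2, d2, q2⟩ := iht (by omega) (L1 ++ G) c1 (hx.append L1)
    refine ⟨L2 ++ L1, by rwa [List.append_assoc], by simp [Tm.size]; omega, ?_, ?_, fun x hx =>
      mul_pos (q1 x hx) (q2 x hx)⟩
    · rw [List.append_assoc]
      exact ((p1.append L2).mul p2).mono (by simp [Tm.size])
    · rw [List.append_assoc]
      refine ((((d1.append L2).mul p2).mono (by simp [Tm.size]; omega)).add
        (((p1.append L2).mul d2).mono (by simp [Tm.size]; omega))).congr fun x hx => ?_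
      exact deriv_fun_mul (((p1.append L2).analytic c2) x hx).differentiableAt
        ((p2.analytic c2) x hx).differentiableAt
  | pow s t ihs iht =>
    intro hC G hG hx
    simp only [Tm.size] at hC
    obtain ⟨L1, c1, l1, p1, d1, q1⟩ := ihs (by omega) G hG hx
    obtain ⟨L2, c2, l2, p2, d2, q2⟩ := iht (by omega) (L1 ++ G) c1 (hx.append L1)
    have P1 := p1.append L2
    have D1 := d1.append L2
    set K := L2 ++ (L1 ++ G) with hK
    have aS : AnalyticOnNhd ℝ s.tr (Set.Ioi 0) := P1.analytic c2
    have aT : AnalyticOnNhd ℝ t.tr (Set.Ioi 0) := p2.analytic c2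
    have dS : ∀ x > 0, DifferentiableAt ℝ s.tr x := fun x hx => (aS x hx).differentiableAt
    have dT : ∀ x > 0, DifferentiableAt ℝ t.tr x := fun x hx => (aT x hx).differentiableAt
    set i : ℝ → ℝ := fun x => (s.tr x)⁻¹ with hi
    set l : ℝ → ℝ := fun x => Real.log (s.tr x) with hl
    set e : ℝ → ℝ := fun x => Real.exp (t.tr x * Real.log (s.tr x)) with he
    have ci : Chain C (i :: K) := by
      refine Chain.cons c2 ?_ ?_ (Or.inr (Or.inr ⟨s.tr, P1.mono (by omega), fun x hx => ?_⟩))
      · exact fun x hx => (aS x hx).fun_inv (q1 x hx).ne'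
      · refine ((((D1.lift i).mul ((Pol.self i K).pow 2)).cmul (-1)).mono (by omega)).congr
          fun x hx => ?_
        rw [hi, deriv_fun_inv'' (dS x hx) (q1 x hx).ne']
        field_simp
      · exact inv_mul_cancel₀ (q1 x hx).ne'
    have dl : ∀ x > 0, deriv l x = deriv s.tr x * i x := fun x hx => by
      rw [hl, deriv.log (dS x hx) (q1 x hx).ne', div_eq_mul_inv]
    have pl : Pol (i :: K) (2 * s.size + 1) (deriv l) :=
      ((D1.lift i).mul (Pol.self i K)).congr dl
    have cl : Chain C (l :: i :: K) := by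
      refine Chain.cons ci ?_ ((pl.lift l).mono (by omega)) (Or.inl (pl.mono (by omega)))
      exact fun x hx => (aS x hx).log (q1 x hx)
    have hb : Pol (l :: i :: K) (2 * s.size + 2 * t.size + 1)
        (fun x => deriv t.tr x * l x + t.tr x * deriv l x) :=
      ((((d2.lift i).lift l).mul (Pol.self l _)).mono (by omega)).add
        ((((p2.lift i).lift l).mul (pl.lift l)).mono (by omega))
    have de : ∀ x > 0, deriv e x = (deriv t.tr x * l x + t.tr x * deriv l x) * e x := fun x hx => by
      have h1 : DifferentiableAt ℝ l x := (dS x hx).log (q1 x hx).ne'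
      have h2 : deriv e x = Real.exp (t.tr x * l x) * deriv (fun x => t.tr x * l x) x :=
        deriv_exp ((dT x hx).fun_mul h1)
      rw [h2, deriv_fun_mul (dT x hx) h1, mul_comm]
    have pe : Pol (e :: l :: i :: K) (2 * s.size + 2 * t.size + 2) (deriv e) :=
      ((hb.lift e).mul (Pol.self e _)).congr de
    have ce : Chain C (e :: l :: i :: K) := by
      refine Chain.cons cl ?_ (pe.mono (by omega)) (Or.inr (Or.inl
        ⟨_, hb.mono (by omega), fun x hx => ⟨Real.exp_pos _, de x hx⟩⟩))
      exact fun x hx => ((aT x hx).mul ((aS x hx).log (q1 x hx))).rexp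
    refine ⟨[e, l, i] ++ L2 ++ L1, ?_, ?_, ?_, ?_, fun x _ => Real.exp_pos _⟩
    · simpa [hK] using ce
    · simp [Tm.size]; omega
    · have := (Pol.self e (l :: i :: K)).mono (show 1 ≤ (Tm.pow s t).size by simp [Tm.size])
      have e1 : [e, l, i] ++ L2 ++ L1 ++ G = e :: l :: i :: K := by simp [hK]
      rw [e1]
      exact this
    · have : Pol (e :: l :: i :: K) (2 * (Tm.pow s t).size) (deriv e) :=
        pe.mono (by simp [Tm.size]; omega)
      have e1 : [e, l, i] ++ L2 ++ L1 ++ G = e :: l :: i :: K := by simp [hK]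
      rw [e1]
      exact this

theorem NB_iter {i j : ℕ} (h : i ≤ j) (x : ℕ) : T^[i] x ≤ T^[j] x := by
  obtain ⟨k, rfl⟩ := Nat.exists_eq_add_of_le h
  rw [add_comm i k, Function.iterate_add_apply]
  exact le_NB _ _

/-- the bound for the number of coincidences -/
def Zb (m : ℕ) : ℕ := T^[6 * m + 2] (3 * m + 3)

theorem zero_bound (s t : Tm) (m : ℕ) (hm : s.size + t.size ≤ m) {n : ℕ} (hn : 1 ≤ n)
    (hne : s.ev n ≠ t.ev n) (F : Finset ℕ) (hF : ∀ k ∈ F, 1 ≤ k ∧ s.ev k = t.ev k) :
    F.card ≤ Zb m := by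
  set C := 2 * m + 3 with hC
  set X : ℝ → ℝ := fun x => x with hX
  have dX : deriv X = fun _ => 1 := by funext x; exact deriv_id x
  have c0 : Chain C [X] := by
    refine Chain.cons Chain.nil analyticOnNhd_id ?_ (Or.inl ?_)
    · rw [dX]; exact Pol.const _ _ 1
    · rw [dX]; exact Pol.const _ _ 1
  obtain ⟨L1, c1, l1, p1, d1, q1⟩ := build C s (by omega) [X] c0 (Pol.self X [])
  obtain ⟨L2, c2, l2, p2, d2, q2⟩ := build C t (by omega) (L1 ++ [X]) c1
    ((Pol.self X []).append L1)
  have hp : Pol (L2 ++ (L1 ++ [X])) m (fun x => s.tr x - t.tr x) :=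
    ((p1.append L2).mono (by omega)).sub (p2.mono (by omega))
  have hz := main_zero c2 m _ hp
  have hlen : (L2 ++ (L1 ++ [X])).length ≤ 3 * m + 1 := by simp; omega
  have hz2 := hz.mono ((NB_iter (show 2 * (L2 ++ (L1 ++ [X])).length ≤ 6 * m + 2 by omega) (m + C)).trans
    (le_of_eq (show T^[6 * m + 2] (m + C) = Zb m by rw [Zb, hC]; congr 1; omega)))
  rcases hz2 with h | h
  · exfalso
    apply hne
    have h1 : s.tr (n : ℝ) - t.tr (n : ℝ) = 0 := h (n : ℝ) (by exact_mod_cast hn)
    rw [s.tr_ev hn, t.tr_ev hn, sub_eq_zero] at h1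
    exact_mod_cast h1
  · have h1 := h (F.image (fun k : ℕ => (k : ℝ))) (by
      intro x hx
      obtain ⟨k, hk, rfl⟩ := Finset.mem_image.1 hx
      obtain ⟨hk1, hk2⟩ := hF k hk
      refine ⟨by exact_mod_cast hk1, ?_⟩
      show s.tr (k : ℝ) - t.tr (k : ℝ) = 0
      rw [s.tr_ev hk1, t.tr_ev hk1, hk2, sub_self])
    rwa [Finset.card_image_of_injective _ Nat.cast_injective] at h1

/-- A term is constant or grows at least linearly. -/
theorem Tm.const_or (t : Tm) : (∀ n, 1 ≤ n → t.ev n = t.ev 1) ∨ ∀ n, 1 ≤ n → n ≤ t.ev n := by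
  induction t with
  | one => exact Or.inl fun n _ => rfl
  | var => exact Or.inr fun n _ => le_rfl
  | add s t hs ht =>
    rcases hs with hs | hs
    · rcases ht with ht | ht
      · left; intro n hn; simp only [Tm.ev]; rw [hs n hn, ht n hn]
      · right; intro n hn; simp only [Tm.ev]; have := ht n hn; omega
    · right; intro n hn; simp only [Tm.ev]; have := hs n hn; omega
  | mul s t hs ht =>
    rcases hs with hs | hs
    · rcases ht with ht | ht
      · left; intro n hn; simp only [Tm.ev]; rw [hs n hn, ht n hn]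
      · right; intro n hn; simp only [Tm.ev]; have := ht n hn; have := s.ev_pos hn; nlinarith
    · right; intro n hn; simp only [Tm.ev]; have := hs n hn; have := t.ev_pos hn; nlinarith
  | pow s t hs ht =>
    rcases hs with hs | hs
    · by_cases h1 : s.ev 1 = 1
      · left; intro n hn; simp only [Tm.ev]; rw [hs n hn, h1]; simp
      · rcases ht with ht | ht
        · left; intro n hn; simp only [Tm.ev]; rw [hs n hn, ht n hn]
        · right; intro n hn
          simp only [Tm.ev]
          have h2 : 2 ≤ s.ev n := by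
            rw [hs n hn]
            have := s.ev_pos (le_refl 1)
            omega
          calc n ≤ t.ev n := ht n hn
            _ ≤ 2 ^ t.ev n := Nat.lt_two_pow_self.le
            _ ≤ s.ev n ^ t.ev n := Nat.pow_le_pow_left h2 _
    · right; intro n hn
      simp only [Tm.ev]
      calc n ≤ s.ev n := hs n hn
        _ = s.ev n ^ 1 := (pow_one _).symm
        _ ≤ s.ev n ^ t.ev n := Nat.pow_le_pow_right (s.ev_pos hn) (t.ev_pos hn)

end Pool.Agent.R813.LV
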