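import Mathlib
import Pool.Agent.R557.CSPrim
import Pool.Agent.R813.LV.Terms

set_option autoImplicit false

/-! Numbers as codes of Skolem terms; primitive recursive procedures. -/

namespace Pool.Agent.R813.LV

open Pool.Agent.R557.CS

theorem unpair_lt (n : ℕ) : (n / 3).unpair.1 < n + 2 ∧ (n / 3).unpair.2 < n + 2 := by
  have h1 := Nat.unpair_left_le (n / 3)
  have h2 := Nat.unpair_right_le (n / 3)
  have h3 := Nat.div_le_self n 3
  omega

/-- the term with a given code -/
def dec (c : ℕ) : Tm :=
  if _h0 : c = 0 then .one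
  else if _h1 : c = 1 then .var
  else
    have h1 : ((c - 2) / 3).unpair.1 < c := by
      have := Nat.unpair_left_le ((c - 2) / 3); have := Nat.div_le_self (c - 2) 3; omega
    have h2 : ((c - 2) / 3).unpair.2 < c := by
      have := Nat.unpair_right_le ((c - 2) / 3); have := Nat.div_le_self (c - 2) 3; omega
    if (c - 2) % 3 = 0 then .add (dec ((c - 2) / 3).unpair.1) (dec ((c - 2) / 3).unpair.2)
    else if (c - 2) % 3 = 1 then .mul (dec ((c - 2) / 3).unpair.1) (dec ((c - 2) / 3).unpair.2)
    else .pow (dec ((c - 2) / 3).unpair.1) (dec ((c - 2) / 3).unpair.2)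
termination_by c

theorem dec_zero : dec 0 = .one := by rw [dec]; simp
theorem dec_one : dec 1 = .var := by rw [dec]; simp

def mkAdd (a b : ℕ) : ℕ := 3 * Nat.pair a b + 2
def mkMul (a b : ℕ) : ℕ := 3 * Nat.pair a b + 3
def mkPow (a b : ℕ) : ℕ := 3 * Nat.pair a b + 4

theorem dec_mkAdd (a b : ℕ) : dec (mkAdd a b) = .add (dec a) (dec b) := by
  rw [dec]
  have e1 : (mkAdd a b - 2) / 3 = Nat.pair a b := by unfold mkAdd; omega
  have e2 : (mkAdd a b - 2) % 3 = 0 := by unfold mkAdd; omega
  rw [dif_neg (by unfold mkAdd; omega), dif_neg (by unfold mkAdd; omega)]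
  simp [e1, e2]

theorem dec_mkMul (a b : ℕ) : dec (mkMul a b) = .mul (dec a) (dec b) := by
  rw [dec]
  have e1 : (mkMul a b - 2) / 3 = Nat.pair a b := by unfold mkMul; omega
  have e2 : (mkMul a b - 2) % 3 = 1 := by unfold mkMul; omega
  rw [dif_neg (by unfold mkMul; omega), dif_neg (by unfold mkMul; omega)]
  simp [e1, e2]

theorem dec_mkPow (a b : ℕ) : dec (mkPow a b) = .pow (dec a) (dec b) := by
  rw [dec]
  have e1 : (mkPow a b - 2) / 3 = Nat.pair a b := by unfold mkPow; omega
  have e2 : (mkPow a b - 2) % 3 = 2 := by unfold mkPow; omega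
  rw [dif_neg (by unfold mkPow; omega), dif_neg (by unfold mkPow; omega)]
  simp [e1, e2]

theorem dec_size (c : ℕ) : (dec c).size ≤ c + 1 := by
  induction c using Nat.strong_induction_on with
  | _ c ih =>
    rw [dec]
    split_ifs with h1 h2 h3 h4
    · simp [Tm.size]
    · simp [Tm.size]
    all_goals
      have a1 := Nat.unpair_left_le ((c - 2) / 3)
      have a2 := Nat.unpair_right_le ((c - 2) / 3)
      have a3 := Nat.add_le_pair ((c - 2) / 3).unpair.1 ((c - 2) / 3).unpair.2
      rw [Nat.pair_unpair] at a3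
      have i1 := ih ((c - 2) / 3).unpair.1 (by omega)
      have i2 := ih ((c - 2) / 3).unpair.2 (by omega)
      simp only [Tm.size]
      omega

/-- evaluation of codes -/
def eN (c n : ℕ) : ℕ := (dec c).ev n

theorem p_pow : Primrec₂ ((· ^ ·) : ℕ → ℕ → ℕ) :=
  Primrec₂.unpaired'.1 Nat.Primrec.pow

theorem p_eN : Primrec₂ eN := by
  have key : Primrec₂ (fun n c => eN c n) := by
    refine Primrec.nat_strong_rec (fun n c => eN c n)
      (g := fun n l => some (if l.length = 0 then 1 else if l.length = 1 then n else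
        if (l.length - 2) % 3 = 0 then
          l.getD ((l.length - 2) / 3).unpair.1 0 + l.getD ((l.length - 2) / 3).unpair.2 0
        else if (l.length - 2) % 3 = 1 then
          l.getD ((l.length - 2) / 3).unpair.1 0 * l.getD ((l.length - 2) / 3).unpair.2 0
        else l.getD ((l.length - 2) / 3).unpair.1 0 ^ l.getD ((l.length - 2) / 3).unpair.2 0)) ?_ ?_
    · have pl : Primrec (fun q : ℕ × List ℕ => q.2.length) := Primrec.list_length.comp Primrec.snd
      have pm : Primrec (fun q : ℕ × List ℕ => q.2.length - 2) := p_sub pl (Primrec.const 2)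
      have pk : Primrec (fun q : ℕ × List ℕ => (q.2.length - 2) / 3) :=
        Primrec.nat_div.comp pm (Primrec.const 3)
      have pr : Primrec (fun q : ℕ × List ℕ => (q.2.length - 2) % 3) :=
        Primrec.nat_mod.comp pm (Primrec.const 3)
      have pa : Primrec (fun q : ℕ × List ℕ => q.2.getD ((q.2.length - 2) / 3).unpair.1 0) :=
        p_getD Primrec.snd (Primrec.fst.comp (Primrec.unpair.comp pk))
      have pb : Primrec (fun q : ℕ × List ℕ => q.2.getD ((q.2.length - 2) / 3).unpair.2 0) :=
        p_getD Primrec.snd (Primrec.snd.comp (Primrec.unpair.comp pk))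
      exact Primrec.option_some.comp (Primrec.ite (Primrec.eq.comp pl (Primrec.const 0))
        (Primrec.const 1) (Primrec.ite (Primrec.eq.comp pl (Primrec.const 1)) Primrec.fst
        (Primrec.ite (Primrec.eq.comp pr (Primrec.const 0)) (p_add pa pb)
        (Primrec.ite (Primrec.eq.comp pr (Primrec.const 1)) (p_mul pa pb) (p_pow.comp pa pb)))))
    · intro n c
      have gd : ∀ i < c, ((List.range c).map (fun c => eN c n)).getD i 0 = eN i n := by
        intro i hi
        simp [List.getD, hi]
      congr 1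
      simp only [List.length_map, List.length_range]
      by_cases h0 : c = 0
      · subst h0; simp [eN, dec_zero, Tm.ev]
      by_cases h1 : c = 1
      · subst h1; simp [eN, dec_one, Tm.ev]
      have a1 := Nat.unpair_left_le ((c - 2) / 3)
      have a2 := Nat.unpair_right_le ((c - 2) / 3)
      rw [if_neg h0, if_neg h1, gd _ (by omega), gd _ (by omega)]
      conv_rhs => rw [eN, dec, dif_neg h0, dif_neg h1]
      simp only []
      split_ifs <;> rfl
  exact Primrec₂.swap key

theorem eN_pos (c : ℕ) {n : ℕ} (hn : 1 ≤ n) : 1 ≤ eN c n := (dec c).ev_pos hn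

theorem p_T : Primrec T := by
  unfold T
  exact p_add (p_add (p_mul (p_pow.comp (Primrec.const 2) Primrec.id) Primrec.id)
    (p_mul (Primrec.const 2) (p_pow.comp Primrec.id (Primrec.const 2))))
    (p_mul (Primrec.const 2) Primrec.id)

theorem p_Zb : Primrec Zb := by
  unfold Zb
  exact Primrec.nat_iterate (f := fun m => 6 * m + 2) (g := fun m => 3 * m + 3) (h := fun _ x => T x)
    (p_add (p_mul (Primrec.const 6) Primrec.id) (Primrec.const 2))
    (p_add (p_mul (Primrec.const 3) Primrec.id) (Primrec.const 3)) (p_T.comp Primrec.snd).to₂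

theorem Zb_mono : Monotone Zb := by
  intro m n h
  unfold Zb
  exact (NB_iter (by omega) _).trans (NB_mono _ (by omega))

/-- equivalence of codes -/
def eqv (c d : ℕ) : Bool := qall (Zb (c + d + 2) + 1) (fun i => decide (eN c (i + 1) = eN d (i + 1)))

theorem eqv_iff (c d : ℕ) : eqv c d = true ↔ ∀ n, 1 ≤ n → eN c n = eN d n := by
  rw [eqv, qall_iff]
  simp only [decide_eq_true_eq]
  constructor
  · intro h n hn
    by_contra hne
    have := zero_bound (dec c) (dec d) (c + d + 2) (by
      have := dec_size c; have := dec_size d; omega) hn hne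
      ((Finset.range (Zb (c + d + 2) + 1)).image (fun i => i + 1)) (by
        intro k hk
        obtain ⟨i, hi, rfl⟩ := Finset.mem_image.1 hk
        exact ⟨by omega, h i (Finset.mem_range.1 hi)⟩)
    rw [Finset.card_image_of_injective _ (fun a b h => by simpa using h), Finset.card_range] at this
    omega
  · intro h i _
    exact h _ (by omega)

theorem p_eqv : Primrec₂ eqv := by
  unfold eqv
  exact p_qall (α := ℕ × ℕ) (n := fun p => Zb (p.1 + p.2 + 2) + 1)
    (f := fun p i => decide (eN p.1 (i + 1) = eN p.2 (i + 1)))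
    (p_add (p_Zb.comp (p_add (p_add Primrec.fst Primrec.snd) (Primrec.const 2))) (Primrec.const 1))
    (p_eq (α := (ℕ × ℕ) × ℕ) (p_eN.comp (Primrec.fst.comp Primrec.fst) (p_add Primrec.snd (Primrec.const 1)))
      (p_eN.comp (Primrec.snd.comp Primrec.fst) (p_add Primrec.snd (Primrec.const 1)))).to₂

/-- the least `i < n` with `f i`, or `n` -/
def lst (n : ℕ) (f : ℕ → Bool) : ℕ := qcnt n (fun i => !(qex (i + 1) f))

theorem lst_spec {n : ℕ} {f : ℕ → Bool} (h : ∃ i < n, f i = true) :
    f (lst n f) = true ∧ lst n f < n ∧ ∀ j < lst n f, f j = false := by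
  have h' : ∃ i, f i = true := let ⟨i, _, hi⟩ := h; ⟨i, hi⟩
  have e : lst n f = Nat.find h' := by
    rw [lst, qcnt_eq]
    have : (Finset.range n).filter (fun i => (!(qex (i + 1) f)) = true) = Finset.range (Nat.find h') := by
      ext i
      simp only [Finset.mem_filter, Finset.mem_range, Bool.not_eq_true', ← Bool.not_eq_true,
        qex_iff]
      constructor
      · rintro ⟨_, h2⟩
        by_contra h3
        exact h2 ⟨Nat.find h', by omega, Nat.find_spec h'⟩
      · intro h2
        obtain ⟨j, hj, hj2⟩ := h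
        have := Nat.find_min' h' hj2
        refine ⟨by omega, ?_⟩
        rintro ⟨m, h3, h4⟩
        exact Nat.find_min h' (show m < Nat.find h' by omega) h4
    rw [this, Finset.card_range]
  obtain ⟨j, hj, hj2⟩ := h
  rw [e]
  refine ⟨Nat.find_spec h', (Nat.find_min' h' hj2).trans_lt hj, fun j hj => ?_⟩
  have := Nat.find_min h' hj
  simpa using this

theorem p_lst {α : Type*} [Primcodable α] {n : α → ℕ} {f : α → ℕ → Bool} (hn : Primrec n)
    (hf : Primrec₂ f) : Primrec fun a => lst (n a) (f a) := by
  unfold lst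
  refine p_qcnt hn ?_
  refine p_not (p_qex (α := α × ℕ) (n := fun p => p.2 + 1) (f := fun p => f p.1)
    (p_add Primrec.snd (Primrec.const 1)) ?_)
  exact hf.comp (Primrec.fst.comp Primrec.fst) Primrec.snd

/-- the least equivalent code -/
def can (c : ℕ) : ℕ := lst (c + 1) (fun d => eqv d c)

theorem eqv_refl (c : ℕ) : eqv c c = true := (eqv_iff c c).2 fun _ _ => rfl

theorem can_spec (c : ℕ) : (∀ n, 1 ≤ n → eN (can c) n = eN c n) ∧
    ∀ d, (∀ n, 1 ≤ n → eN d n = eN c n) → can c ≤ d := by
  obtain ⟨h1, h2, h3⟩ := lst_spec (n := c + 1) (f := fun d => eqv d c) ⟨c, by omega, eqv_refl c⟩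
  refine ⟨(eqv_iff _ _).1 h1, fun d hd => ?_⟩
  by_contra hlt
  have := h3 d (not_le.1 hlt)
  rw [(eqv_iff d c).2 hd] at this
  exact absurd this (by simp)

theorem can_eq {c d : ℕ} (h : ∀ n, 1 ≤ n → eN c n = eN d n) : can c = can d := by
  apply le_antisymm
  · exact (can_spec c).2 _ fun n hn => by rw [(can_spec d).1 n hn, h n hn]
  · exact (can_spec d).2 _ fun n hn => by rw [(can_spec c).1 n hn, h n hn]

theorem can_can (c : ℕ) : can (can c) = can c := can_eq (can_spec c).1

theorem p_can : Primrec can := by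
  unfold can
  exact p_lst (p_add Primrec.id (Primrec.const 1)) (p_eqv.comp Primrec.snd Primrec.fst).to₂

/-- the term is not constant -/
def nonc (c : ℕ) : Bool := !(decide (eN c (eN c 1 + 1) = eN c 1))

theorem nonc_ge {c : ℕ} (h : nonc c = true) : ∀ n, 1 ≤ n → n ≤ eN c n := by
  rcases (dec c).const_or with h1 | h1
  · exfalso
    have h2 : eN c (eN c 1 + 1) = eN c 1 := h1 _ (by omega)
    simp [nonc, h2] at h
  · exact h1

theorem nonc_false {c : ℕ} (h : nonc c = false) : ∀ n, 1 ≤ n → eN c n = eN c 1 := by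
  rcases (dec c).const_or with h1 | h1
  · exact h1
  · exfalso
    have h2 : eN c (eN c 1 + 1) = eN c 1 := by simpa [nonc] using h
    have h3 : eN c 1 + 1 ≤ eN c (eN c 1 + 1) := h1 _ (by omega)
    omega

theorem p_nonc : Primrec nonc := by
  unfold nonc
  have p1 : Primrec (fun c => eN c 1) := p_eN.comp Primrec.id (Primrec.const 1)
  exact p_not (p_eq (p_eN.comp Primrec.id (p_add p1 (Primrec.const 1))) p1)

theorem nonc_congr {c d : ℕ} (h : ∀ n, 1 ≤ n → eN c n = eN d n) : nonc c = nonc d := by
  unfold nonc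
  rw [h 1 le_rfl, h _ (by omega)]

theorem nonc_one : nonc 1 = true := by simp [nonc, eN, dec_one, Tm.ev]

theorem can_one : can 1 = 1 := by
  have h1 : can 1 ≤ 1 := (can_spec 1).2 1 fun _ _ => rfl
  rcases Nat.lt_or_ge (can 1) 1 with h2 | h2
  · exfalso
    have h3 : can 1 = 0 := by omega
    have h4 := (can_spec 1).1 2 (by norm_num)
    rw [h3] at h4
    simp [eN, dec_zero, dec_one, Tm.ev] at h4
  · omega

end Pool.Agent.R813.LV
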