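import Mathlib
import Pool.Agent.R813.LV.Code

set_option autoImplicit false

/-! A fast growing function with primitive recursive graph; enumeration of primitive recursive
sets; separating arguments. -/

namespace Pool.Agent.R813.LV

open Pool.Agent.R557.CS Nat.Partrec

theorem exists_fast : ∃ (b : ℕ → ℕ) (B : ℕ → ℕ → Bool), Primrec₂ B ∧
    (∀ k n, B k n = true ↔ b k ≤ n) ∧ StrictMono b ∧ 2 ≤ b 0 ∧
    ∀ g : ℕ → ℕ, Primrec g → ∃ k, g k < b k := by
  classical
  have hcomp : Computable (fun n => ack n n) := computable₂_ack.comp Computable.id Computable.id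
  have hpr : Nat.Partrec (fun n => Part.some (ack n n)) := Partrec.nat_iff.1 hcomp.partrec
  obtain ⟨c, hc⟩ := Code.exists_code.1 hpr
  have ex : ∀ i, ∃ s, ack i i ∈ Code.evaln s c i := fun i => by
    apply Code.evaln_complete.1
    rw [hc]; exact Part.mem_some _
  have ex2 : ∀ k, ∃ s, ∀ i ≤ k, ack i i ∈ Code.evaln s c i := by
    intro k
    choose s hs using ex
    refine ⟨(Finset.range (k + 1)).sup s, fun i hi => ?_⟩
    exact Code.evaln_mono (Finset.le_sup (f := s) (Finset.mem_range.2 (by omega))) (hs i)
  set τ : ℕ → ℕ := fun k => Nat.find (ex2 k) with hτ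
  have τ_mono : Monotone τ := by
    intro k l hkl
    apply Nat.find_min'
    intro i hi
    exact Nat.find_spec (ex2 l) i (hi.trans hkl)
  refine ⟨fun k => τ k + k + 2, fun k n => decide (k + 2 ≤ n) &&
    qall (k + 1) (fun i => (Code.evaln (n - k - 2) c i).isSome), ?_, ?_, ?_, ?_, ?_⟩
  · refine p_and (α := ℕ × ℕ) (p_le (p_add Primrec.fst (Primrec.const 2)) Primrec.snd)
      (p_qall (α := ℕ × ℕ) (n := fun p => p.1 + 1)
        (f := fun p i => (Code.evaln (p.2 - p.1 - 2) c i).isSome)
        (p_add Primrec.fst (Primrec.const 1)) ?_)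
    refine Primrec.option_isSome.comp (Code.primrec_evaln.comp
      (g := fun q : (ℕ × ℕ) × ℕ => (((q.1.2 - q.1.1 - 2, c), q.2) : (ℕ × Code) × ℕ)) ?_)
    exact Primrec.pair (Primrec.pair (p_sub (p_sub (Primrec.snd.comp Primrec.fst)
      (Primrec.fst.comp Primrec.fst)) (Primrec.const 2)) (Primrec.const c)) Primrec.snd
  · intro k n
    beta_reduce
    rw [Bool.and_eq_true, decide_eq_true_eq, qall_iff]
    constructor
    · rintro ⟨h1, h2⟩
      have : τ k ≤ n - k - 2 := by
        apply Nat.find_min'
        intro i hi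
        obtain ⟨y, hy⟩ := Option.isSome_iff_exists.1 (h2 i (by omega))
        have h3 : y ∈ Code.eval c i := Code.evaln_sound hy
        rw [hc, Part.mem_some_iff] at h3
        rw [← h3]; exact hy
      omega
    · intro h
      refine ⟨by omega, fun i hi => ?_⟩
      have h1 := Nat.find_spec (ex2 k) i (by omega)
      have h2 := Code.evaln_mono (show τ k ≤ n - k - 2 by omega) h1
      exact Option.isSome_iff_exists.2 ⟨_, h2⟩
  · intro k l hkl
    have := τ_mono hkl.le
    simp only []
    omega
  · beta_reduce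
    omega
  · intro g hg
    by_contra hcon
    push Not at hcon
    apply not_primrec_ack_self
    have h1 : ∀ n, ack n n = (Code.evaln (g n) c n).getD 0 := by
      intro n
      have h2 := Nat.find_spec (ex2 n) n le_rfl
      have h3 := Code.evaln_mono (show τ n ≤ g n by have := hcon n; omega) h2
      rw [Option.mem_def.1 h3]; rfl
    have h2 : Primrec fun n => (Code.evaln (g n) c n).getD 0 :=
      Primrec.option_getD.comp (Code.primrec_evaln.comp
        (g := fun n : ℕ => (((g n, c), n) : (ℕ × Code) × ℕ))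
        (Primrec.pair (Primrec.pair hg (Primrec.const c)) Primrec.id)) (Primrec.const 0)
    exact h2.of_eq fun n => (h1 n).symm

theorem exists_enum (D : ℕ → Bool) (hD : Primrec D) (nb : ℕ → ℕ) (hnb : Primrec nb)
    (h : ∀ y, ∃ n, y < n ∧ n ≤ nb y ∧ D n = true) :
    ∃ en rk : ℕ → ℕ, Primrec en ∧ Primrec rk ∧ (∀ i, D (en i) = true) ∧ (∀ i, rk (en i) = i) ∧
      ∀ n, D n = true → en (rk n) = n := by
  classical
  set nx : ℕ → ℕ := fun y => y + lst (nb y + 1) (fun i => D (y + i)) with hnx
  -- `nx y` is the least element of `D` which is at least `y`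
  have nx_spec : ∀ y, D (nx y) = true ∧ y ≤ nx y ∧ ∀ m, y ≤ m → m < nx y → D m = false := by
    intro y
    obtain ⟨n, h1, h2, h3⟩ := h y
    obtain ⟨h4, h5, h6⟩ := lst_spec (n := nb y + 1) (f := fun i => D (y + i))
      ⟨n - y, by omega, by rw [show y + (n - y) = n by omega]; exact h3⟩
    refine ⟨h4, by simp [hnx], fun m hm1 hm2 => ?_⟩
    have := h6 (m - y) (by simp only [hnx] at hm2; omega)
    rwa [show y + (m - y) = m by omega] at this
  have p_nx : Primrec nx := p_add Primrec.id (p_lst (p_add hnb (Primrec.const 1))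
    (hD.comp (p_add Primrec.fst Primrec.snd)).to₂)
  set en : ℕ → ℕ := fun i => Nat.rec (nx 0) (fun _ r => nx (r + 1)) i with hen
  have p_en : Primrec en := by
    refine Primrec.nat_rec' (f := fun i : ℕ => i) (g := fun _ => nx 0) (h := fun _ p => nx (p.2 + 1))
      Primrec.id (Primrec.const _) ?_
    exact p_nx.comp (p_add (Primrec.snd.comp Primrec.snd) (Primrec.const 1))
  have en_mem : ∀ i, D (en i) = true := by
    intro i
    cases i with
    | zero => exact (nx_spec 0).1
    | succ i => exact (nx_spec (en i + 1)).1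
  have cnt : ∀ i, Nat.count (fun m => D m = true) (en i) = i := by
    intro i
    induction i with
    | zero =>
      rw [Nat.count_eq_card_filter_range, Finset.card_eq_zero, Finset.filter_eq_empty_iff]
      intro m hm
      have := (nx_spec 0).2.2 m (Nat.zero_le _) (Finset.mem_range.1 hm)
      simp [this]
    | succ i ih =>
      have h1 : en (i + 1) = nx (en i + 1) := rfl
      have h2 := (nx_spec (en i + 1)).2.1
      have h3 : Nat.count (fun m => D m = true) (en (i + 1)) =
          Nat.count (fun m => D m = true) (en i + 1) := by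
        rw [h1]
        obtain ⟨q, hq⟩ := Nat.exists_eq_add_of_le h2
        rw [hq, Nat.count_add]
        have : Nat.count (fun k => D (en i + 1 + k) = true) q = 0 := by
          rw [Nat.count_eq_card_filter_range, Finset.card_eq_zero, Finset.filter_eq_empty_iff]
          intro m hm
          have := (nx_spec (en i + 1)).2.2 (en i + 1 + m) (by omega) (by
            have := Finset.mem_range.1 hm; omega)
          simp [this]
        omega
      rw [h3, Nat.count_succ, ih, if_pos (en_mem i)]
  refine ⟨en, fun n => qcnt n D, p_en, p_qcnt Primrec.id (hD.comp Primrec.snd).to₂, en_mem, ?_, ?_⟩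
  · intro i
    beta_reduce
    rw [qcnt_eq, ← Nat.count_eq_card_filter_range, cnt]
  · intro n hn
    simp only []
    rw [qcnt_eq, ← Nat.count_eq_card_filter_range]
    have h1 := cnt (Nat.count (fun m => D m = true) n)
    exact Nat.count_injective (en_mem _) hn h1

/-- all inequivalent codes below `b` are separated by `n` -/
def sep (b n : ℕ) : Bool :=
  qall b (fun s => qall b (fun t => eqv s t || !(decide (eN s n = eN t n))))

theorem sep_iff (b n : ℕ) : sep b n = true ↔ ∀ s < b, ∀ t < b, eN s n = eN t n → eqv s t = true := by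
  rw [sep, qall_iff]
  refine forall₂_congr fun s _ => ?_
  rw [qall_iff]
  refine forall₂_congr fun t _ => ?_
  rw [Bool.or_eq_true, Bool.not_eq_true', decide_eq_false_iff_not]
  tauto

theorem p_sep : Primrec₂ sep := by
  unfold sep
  refine p_qall (α := ℕ × ℕ) (n := fun p => p.1)
    (f := fun p s => qall p.1 (fun t => eqv s t || !(decide (eN s p.2 = eN t p.2)))) Primrec.fst ?_
  refine p_qall (α := (ℕ × ℕ) × ℕ) (n := fun p => p.1.1)
    (f := fun p t => eqv p.2 t || !(decide (eN p.2 p.1.2 = eN t p.1.2)))
    (Primrec.fst.comp Primrec.fst) ?_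
  exact p_or (p_eqv.comp (Primrec.snd.comp Primrec.fst) Primrec.snd)
    (p_not (p_eq (p_eN.comp (Primrec.snd.comp Primrec.fst)
      (Primrec.snd.comp (Primrec.fst.comp Primrec.fst)))
      (p_eN.comp Primrec.snd (Primrec.snd.comp (Primrec.fst.comp Primrec.fst)))))

theorem sep_exists (b L : ℕ) (hL : 1 ≤ L) : ∃ i < b * b * Zb (2 * b + 2) + 1, sep b (L + i) = true := by
  classical
  by_contra hcon
  push Not at hcon
  set M := b * b * Zb (2 * b + 2) + 1 with hM
  have hsub : Finset.range M ⊆ ((Finset.range b ×ˢ Finset.range b).filter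
      (fun p => eqv p.1 p.2 = false)).biUnion (fun p => (Finset.range M).filter
      (fun i => eN p.1 (L + i) = eN p.2 (L + i))) := by
    intro i hi
    have h1 := hcon i (Finset.mem_range.1 hi)
    rw [Ne, sep_iff] at h1
    push Not at h1
    obtain ⟨s, hs, t, ht, h2, h3⟩ := h1
    rw [Finset.mem_biUnion]
    refine ⟨(s, t), ?_, ?_⟩
    · simp only [Finset.mem_filter, Finset.mem_product, Finset.mem_range]
      exact ⟨⟨hs, ht⟩, by simpa using h3⟩
    · simp only [Finset.mem_filter]
      exact ⟨hi, h2⟩
  have hc := (Finset.card_le_card hsub).trans Finset.card_biUnion_le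
  have hb : ∀ p ∈ (Finset.range b ×ˢ Finset.range b).filter (fun p : ℕ × ℕ => eqv p.1 p.2 = false),
      ((Finset.range M).filter (fun i => eN p.1 (L + i) = eN p.2 (L + i))).card ≤ Zb (2 * b + 2) := by
    intro p hp
    simp only [Finset.mem_filter, Finset.mem_product, Finset.mem_range] at hp
    obtain ⟨⟨hs, ht⟩, h3⟩ := hp
    have h4 : ¬ ∀ n, 1 ≤ n → eN p.1 n = eN p.2 n := by
      rw [← eqv_iff, h3]; simp
    push Not at h4
    obtain ⟨n, hn, hne⟩ := h4
    have := zero_bound (dec p.1) (dec p.2) (2 * b + 2) (by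
      have := dec_size p.1; have := dec_size p.2; omega) hn hne
      (((Finset.range M).filter (fun i => eN p.1 (L + i) = eN p.2 (L + i))).image (fun i => L + i)) (by
        intro k hk
        obtain ⟨i, hi, rfl⟩ := Finset.mem_image.1 hk
        exact ⟨by omega, (Finset.mem_filter.1 hi).2⟩)
    rwa [Finset.card_image_of_injective _ (add_right_injective L)] at this
  have hc2 := hc.trans (Finset.sum_le_card_nsmul _ _ _ hb)
  have hc3 : ((Finset.range b ×ˢ Finset.range b).filter
      (fun p : ℕ × ℕ => eqv p.1 p.2 = false)).card ≤ b * b := by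
    refine (Finset.card_filter_le _ _).trans ?_
    rw [Finset.card_product, Finset.card_range]
  rw [Finset.card_range, smul_eq_mul] at hc2
  have := Nat.mul_le_mul_right (Zb (2 * b + 2)) hc3
  omega

/-- the lower bound for the next argument -/
def LL (b m : ℕ) : ℕ := 4 * (b * b) + 16 + 4 * m + qsum b (fun t => eN t m) + 1

/-- the next argument -/
def st (b m : ℕ) : ℕ := LL b m + lst (b * b * Zb (2 * b + 2) + 1) (fun i => sep b (LL b m + i))

theorem st_ge (b m : ℕ) : LL b m ≤ st b m := by unfold st; omega

theorem st_sep (b m : ℕ) : sep b (st b m) = true :=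
  (lst_spec (n := b * b * Zb (2 * b + 2) + 1) (f := fun i => sep b (LL b m + i))
    (sep_exists b (LL b m) (by unfold LL; omega))).1

theorem p_LL : Primrec₂ LL := by
  unfold LL
  have pf : Primrec₂ (fun (p : ℕ × ℕ) (t : ℕ) => eN t p.2) :=
    (p_eN.comp Primrec.snd (Primrec.snd.comp Primrec.fst)).to₂
  have hq : Primrec (fun p : ℕ × ℕ => qsum p.1 (fun t => eN t p.2)) := p_qsum Primrec.fst pf
  exact p_add (p_add (p_add (p_add (p_mul (Primrec.const 4) (p_mul Primrec.fst Primrec.fst))
    (Primrec.const 16)) (p_mul (Primrec.const 4) Primrec.snd)) hq) (Primrec.const 1)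

theorem p_st : Primrec₂ st := by
  unfold st
  refine p_add (α := ℕ × ℕ) (p_LL.comp Primrec.fst Primrec.snd) (p_lst (α := ℕ × ℕ) ?_ ?_)
  · exact p_add (p_mul (p_mul Primrec.fst Primrec.fst) (p_Zb.comp (p_add (p_mul (Primrec.const 2)
      Primrec.fst) (Primrec.const 2)))) (Primrec.const 1)
  · exact p_sep.comp (Primrec.fst.comp Primrec.fst) (p_add (p_LL.comp (Primrec.fst.comp Primrec.fst)
      (Primrec.snd.comp Primrec.fst)) Primrec.snd)

end Pool.Agent.R813.LV
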