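import Mathlib
import Pool.Agent.R813.LV.Fast

set_option autoImplicit false

/-! The labels. -/

namespace Pool.Agent.R813.LV

open Pool.Agent.R557.CS

structure Fst (b : ℕ → ℕ) (B : ℕ → ℕ → Bool) : Prop where
  pB : Primrec₂ B
  iff : ∀ k n, B k n = true ↔ b k ≤ n
  mono : StrictMono b
  two : 2 ≤ b 0

variable {b : ℕ → ℕ} {B : ℕ → ℕ → Bool}

theorem Fst.le_b (H : Fst b B) (k : ℕ) : k + 2 ≤ b k := by
  induction k with
  | zero => exact H.two
  | succ k ih => have := H.mono (show k < k + 1 by omega); omega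

/-- the special arguments -/
def NN (b : ℕ → ℕ) : ℕ → ℕ
  | 0 => st (b 0) 0
  | k + 1 => st (b (k + 1)) (NN b k)

theorem NN_ge (b : ℕ → ℕ) (k : ℕ) : 4 * (b k * b k) + 17 ≤ NN b k := by
  cases k with
  | zero => have := st_ge (b 0) 0; unfold LL at this; unfold NN; omega
  | succ k => have := st_ge (b (k + 1)) (NN b k); unfold LL at this; unfold NN; omega

theorem le_qsum {n t : ℕ} (f : ℕ → ℕ) (h : t < n) : f t ≤ qsum n f := by
  rw [qsum_eq]
  exact Finset.single_le_sum (f := f) (fun _ _ => Nat.zero_le _) (Finset.mem_range.2 h)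

theorem NN_lt (b : ℕ → ℕ) (k : ℕ) : NN b k < NN b (k + 1) := by
  have := st_ge (b (k + 1)) (NN b k)
  unfold LL at this
  show NN b k < st (b (k + 1)) (NN b k)
  omega

theorem eN_lt (b : ℕ → ℕ) (k : ℕ) {t : ℕ} (ht : t < b (k + 1)) : eN t (NN b k) < NN b (k + 1) := by
  have h1 := st_ge (b (k + 1)) (NN b k)
  have h2 := le_qsum (fun t => eN t (NN b k)) ht
  unfold LL at h1
  show eN t (NN b k) < st (b (k + 1)) (NN b k)
  beta_reduce at h2
  omega

theorem NN_mono (b : ℕ → ℕ) : StrictMono (NN b) := strictMono_nat_of_lt_succ (NN_lt b)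

theorem NN_sep (b : ℕ → ℕ) (k : ℕ) : sep (b k) (NN b k) = true := by
  cases k with
  | zero => exact st_sep _ _
  | succ k => exact st_sep _ _

/-- valid term labels -/
def val (B : ℕ → ℕ → Bool) (k t : ℕ) : Bool := !(B k t) && nonc t && decide (can t = t)

theorem Fst.val_iff (H : Fst b B) (k t : ℕ) :
    val B k t = true ↔ t < b k ∧ nonc t = true ∧ can t = t := by
  rw [val, Bool.and_eq_true, Bool.and_eq_true, decide_eq_true_eq, Bool.not_eq_true',
    ← Bool.not_eq_true, H.iff]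
  constructor
  · rintro ⟨⟨h1, h2⟩, h3⟩; exact ⟨by omega, h2, h3⟩
  · rintro ⟨h1, h2, h3⟩; exact ⟨⟨by omega, h2⟩, h3⟩

theorem Fst.p_val (H : Fst b B) : Primrec₂ (val B) := by
  unfold val
  exact p_and (p_and (p_not (H.pB.comp Primrec.fst Primrec.snd)) (p_nonc.comp Primrec.snd))
    (p_eq (p_can.comp Primrec.snd) Primrec.snd)

theorem Fst.b_le_NN (H : Fst b B) (k : ℕ) : b k ≤ NN b k := by
  have := NN_ge b k
  nlinarith [H.le_b k]

theorem Fst.pos_ge (H : Fst b B) {k t : ℕ} (h : val B k t = true) : NN b k ≤ eN t (NN b k) :=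
  nonc_ge ((H.val_iff k t).1 h).2.1 _ (by have := NN_ge b k; omega)

theorem Fst.pos_lt (H : Fst b B) {k t : ℕ} (h : val B k t = true) :
    eN t (NN b k) < NN b (k + 1) :=
  eN_lt b k (((H.val_iff k t).1 h).1.trans (H.mono (Nat.lt_succ_self k)))

theorem Fst.inj (H : Fst b B) {k t k' t' : ℕ} (h : val B k t = true) (h' : val B k' t' = true)
    (e : eN t (NN b k) = eN t' (NN b k')) : k = k' ∧ t = t' := by
  have hk : k = k' := by
    rcases lt_trichotomy k k' with hlt | heq | hlt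
    · have h1 := H.pos_lt h
      have h2 := H.pos_ge h'
      have h3 := (NN_mono b).monotone (show k + 1 ≤ k' from hlt)
      omega
    · exact heq
    · have h1 := H.pos_lt h'
      have h2 := H.pos_ge h
      have h3 := (NN_mono b).monotone (show k' + 1 ≤ k from hlt)
      omega
  subst hk
  refine ⟨rfl, ?_⟩
  obtain ⟨a1, _, a3⟩ := (H.val_iff k t).1 h
  obtain ⟨c1, _, c3⟩ := (H.val_iff k t').1 h'
  have h4 := (sep_iff (b k) (NN b k)).1 (NN_sep b k) t a1 t' c1 e
  rw [← a3, ← c3]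
  exact can_eq ((eqv_iff _ _).1 h4)

/-- `min (b j) cap` -/
def bc (B : ℕ → ℕ → Bool) (j cap : ℕ) : ℕ := qcnt cap (fun n => !(B j n))

theorem Fst.bc_eq (H : Fst b B) {j cap : ℕ} (h : b j ≤ cap) : bc B j cap = b j := by
  rw [bc, qcnt_eq]
  have : (Finset.range cap).filter (fun n => (!(B j n)) = true) = Finset.range (b j) := by
    ext n
    simp only [Finset.mem_filter, Finset.mem_range, Bool.not_eq_true', ← Bool.not_eq_true, H.iff]
    omega
  rw [this, Finset.card_range]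

def Nn (B : ℕ → ℕ → Bool) (k cap : ℕ) : ℕ :=
  Nat.rec (st (bc B 0 cap) 0) (fun j r => st (bc B (j + 1) cap) r) k

theorem Fst.Nn_eq (H : Fst b B) {k cap : ℕ} (h : b k ≤ cap) : Nn B k cap = NN b k := by
  induction k with
  | zero => show st (bc B 0 cap) 0 = st (b 0) 0; rw [H.bc_eq h]
  | succ k ih =>
    have h1 := ih ((H.mono (Nat.lt_succ_self k)).le.trans h)
    show st (bc B (k + 1) cap) (Nn B k cap) = st (b (k + 1)) (NN b k)
    rw [H.bc_eq h, h1]

theorem Fst.p_bc (H : Fst b B) : Primrec₂ (bc B) := by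
  unfold bc
  exact p_qcnt (α := ℕ × ℕ) Primrec.snd
    (p_not (α := (ℕ × ℕ) × ℕ) (H.pB.comp (Primrec.fst.comp Primrec.fst) Primrec.snd)).to₂

theorem Fst.p_Nn (H : Fst b B) : Primrec₂ (Nn B) := by
  unfold Nn
  refine Primrec.nat_rec' (α := ℕ × ℕ) (f := fun p => p.1) (g := fun p => st (bc B 0 p.2) 0)
    (h := fun p q => st (bc B (q.1 + 1) p.2) q.2) Primrec.fst
    (p_st.comp (H.p_bc.comp (Primrec.const 0) Primrec.snd) (Primrec.const 0)) ?_
  exact p_st.comp (H.p_bc.comp (p_add (Primrec.fst.comp Primrec.snd) (Primrec.const 1))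
    (Primrec.snd.comp Primrec.fst)) (Primrec.snd.comp Primrec.snd)

/-- `p` is the code of a valid term label with value `n` -/
def tl (B : ℕ → ℕ → Bool) (p n : ℕ) : Bool :=
  B p.unpair.1 n && val B p.unpair.1 p.unpair.2 &&
    decide (eN p.unpair.2 (Nn B p.unpair.1 n) = n)

theorem Fst.tl_iff (H : Fst b B) (p n : ℕ) : tl B p n = true ↔
    val B p.unpair.1 p.unpair.2 = true ∧ eN p.unpair.2 (NN b p.unpair.1) = n := by
  rw [tl, Bool.and_eq_true, Bool.and_eq_true, decide_eq_true_eq, H.iff]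
  constructor
  · rintro ⟨⟨h1, h2⟩, h3⟩
    rw [H.Nn_eq h1] at h3
    exact ⟨h2, h3⟩
  · rintro ⟨h1, h2⟩
    have h3 : b p.unpair.1 ≤ n := by
      have := H.b_le_NN p.unpair.1
      have := H.pos_ge h1
      omega
    rw [H.Nn_eq h3]
    exact ⟨⟨h3, h1⟩, h2⟩

theorem Fst.p_tl (H : Fst b B) : Primrec₂ (tl B) := by
  unfold tl
  have p1 : Primrec (fun q : ℕ × ℕ => q.1.unpair.1) :=
    Primrec.fst.comp (Primrec.unpair.comp Primrec.fst)
  have p2 : Primrec (fun q : ℕ × ℕ => q.1.unpair.2) :=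
    Primrec.snd.comp (Primrec.unpair.comp Primrec.fst)
  exact p_and (p_and (H.pB.comp p1 Primrec.snd) (H.p_val.comp p1 p2))
    (p_eq (p_eN.comp p2 (H.p_Nn.comp p1 Primrec.snd)) Primrec.snd)

theorem Fst.tl_bound (H : Fst b B) {p n : ℕ} (h : tl B p n = true) : p < (n + 1) * (n + 1) := by
  obtain ⟨h1, h2⟩ := (H.tl_iff p n).1 h
  have h3 := H.pos_ge h1
  have h4 := H.b_le_NN p.unpair.1
  have h5 := H.le_b p.unpair.1
  have h6 := ((H.val_iff _ _).1 h1).1
  have h7 := Nat.pair_lt_max_add_one_sq p.unpair.1 p.unpair.2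
  rw [Nat.pair_unpair] at h7
  have h8 : max p.unpair.1 p.unpair.2 ≤ n := max_le (by omega) (by omega)
  calc p < (max p.unpair.1 p.unpair.2 + 1) ^ 2 := h7
    _ ≤ (n + 1) ^ 2 := Nat.pow_le_pow_left (by omega) 2
    _ = _ := by ring

theorem Fst.tl_unique (H : Fst b B) {p q n : ℕ} (h : tl B p n = true) (h' : tl B q n = true) :
    p = q := by
  obtain ⟨h1, h2⟩ := (H.tl_iff p n).1 h
  obtain ⟨h3, h4⟩ := (H.tl_iff q n).1 h'
  obtain ⟨h5, h6⟩ := H.inj h1 h3 (h2.trans h4.symm)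
  rw [← Nat.pair_unpair p, ← Nat.pair_unpair q, h5, h6]

/-- the label of a number -/
def lab (B : ℕ → ℕ → Bool) (n : ℕ) : ℕ :=
  bif qex ((n + 1) * (n + 1)) (fun p => tl B p n) then
    qsum ((n + 1) * (n + 1)) (fun p => bif tl B p n then 2 * p + 1 else 0) else 2 * n

theorem Fst.lab_odd (H : Fst b B) {p n : ℕ} (h : tl B p n = true) : lab B n = 2 * p + 1 := by
  have h1 : qex ((n + 1) * (n + 1)) (fun p => tl B p n) = true :=
    (qex_iff _ _).2 ⟨p, H.tl_bound h, h⟩
  rw [lab, h1, cond_true, qsum_eq, Finset.sum_eq_single p]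
  · rw [h, cond_true]
  · intro q _ hq
    have : tl B q n = false := by
      rw [← Bool.not_eq_true]
      exact fun h' => hq (H.tl_unique h' h)
    rw [this, cond_false]
  · intro hp
    exact absurd (Finset.mem_range.2 (H.tl_bound h)) hp

theorem Fst.lab_even (H : Fst b B) {n : ℕ} (h : ∀ p, tl B p n = false) : lab B n = 2 * n := by
  have h1 : qex ((n + 1) * (n + 1)) (fun p => tl B p n) = false := by
    rw [← Bool.not_eq_true, qex_iff]
    rintro ⟨p, _, hp⟩
    rw [h p] at hp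
    exact absurd hp (by simp)
  rw [lab, h1, cond_false]

theorem Fst.p_lab (H : Fst b B) : Primrec (lab B) := by
  unfold lab
  have p1 : Primrec (fun n : ℕ => (n + 1) * (n + 1)) :=
    p_mul (p_add Primrec.id (Primrec.const 1)) (p_add Primrec.id (Primrec.const 1))
  exact Primrec.cond (p_qex p1 (H.p_tl.comp Primrec.snd Primrec.fst).to₂)
    (p_qsum p1 (Primrec.cond (H.p_tl.comp Primrec.snd Primrec.fst)
      (p_add (p_mul (Primrec.const 2) Primrec.snd) (Primrec.const 1)) (Primrec.const 0)).to₂)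
    (p_mul (Primrec.const 2) Primrec.id)

/-- the value of a label -/
def pos (b : ℕ → ℕ) (l : ℕ) : ℕ :=
  if l % 2 = 0 then l / 2 else eN (l / 2).unpair.2 (NN b (l / 2).unpair.1)

/-- valid labels -/
def Dom (B : ℕ → ℕ → Bool) (l : ℕ) : Bool :=
  bif decide (l % 2 = 0) then
    !(qex ((l / 2 + 1) * (l / 2 + 1)) (fun p => tl B p (l / 2)))
  else val B (l / 2).unpair.1 (l / 2).unpair.2

theorem Fst.p_Dom (H : Fst b B) : Primrec (Dom B) := by
  unfold Dom
  have p0 : Primrec (fun l : ℕ => l / 2) := Primrec.nat_div.comp Primrec.id (Primrec.const 2)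
  have p1 : Primrec (fun l : ℕ => (l / 2 + 1) * (l / 2 + 1)) :=
    p_mul (p_add p0 (Primrec.const 1)) (p_add p0 (Primrec.const 1))
  exact Primrec.cond (p_eq (Primrec.nat_mod.comp Primrec.id (Primrec.const 2)) (Primrec.const 0))
    (p_not (p_qex p1 (H.p_tl.comp Primrec.snd (p0.comp Primrec.fst)).to₂))
    (H.p_val.comp (Primrec.fst.comp (Primrec.unpair.comp p0))
      (Primrec.snd.comp (Primrec.unpair.comp p0)))

theorem Fst.dom_even (H : Fst b B) (n : ℕ) : Dom B (2 * n) = true ↔ ∀ p, tl B p n = false := by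
  have e1 : 2 * n % 2 = 0 := by omega
  have e2 : 2 * n / 2 = n := by omega
  rw [Dom, e1, e2]
  simp only [decide_true, cond_true, Bool.not_eq_true']
  rw [← Bool.not_eq_true, qex_iff]
  constructor
  · intro h p
    rw [← Bool.not_eq_true]
    exact fun hp => h ⟨p, H.tl_bound hp, hp⟩
  · rintro h ⟨p, _, hp⟩
    rw [h p] at hp
    exact absurd hp (by simp)

theorem dom_odd (B : ℕ → ℕ → Bool) (p : ℕ) : Dom B (2 * p + 1) = val B p.unpair.1 p.unpair.2 := by
  have e1 : (2 * p + 1) % 2 = 1 := by omega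
  have e2 : (2 * p + 1) / 2 = p := by omega
  rw [Dom, e1, e2]
  simp

theorem pos_even (b : ℕ → ℕ) (n : ℕ) : pos b (2 * n) = n := by
  rw [pos, if_pos (by omega)]; omega

theorem pos_odd (b : ℕ → ℕ) (p : ℕ) : pos b (2 * p + 1) = eN p.unpair.2 (NN b p.unpair.1) := by
  rw [pos, if_neg (by omega), show (2 * p + 1) / 2 = p by omega]

theorem Fst.lab_spec (H : Fst b B) (n : ℕ) : Dom B (lab B n) = true ∧ pos b (lab B n) = n := by
  by_cases h : ∃ p, tl B p n = true
  · obtain ⟨p, hp⟩ := h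
    obtain ⟨h1, h2⟩ := (H.tl_iff p n).1 hp
    rw [H.lab_odd hp, dom_odd, pos_odd]
    exact ⟨h1, h2⟩
  · have h' : ∀ p, tl B p n = false := fun p => by
      rw [← Bool.not_eq_true]; exact fun hp => h ⟨p, hp⟩
    rw [H.lab_even h', H.dom_even, pos_even]
    exact ⟨h', rfl⟩

theorem Fst.lab_pos (H : Fst b B) {l : ℕ} (h : Dom B l = true) : lab B (pos b l) = l := by
  rcases Nat.even_or_odd' l with ⟨n, rfl | rfl⟩
  · rw [pos_even, H.lab_even ((H.dom_even n).1 h)]
  · rw [pos_odd]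
    rw [dom_odd] at h
    exact H.lab_odd ((H.tl_iff n _).2 ⟨h, rfl⟩)

theorem Fst.free (H : Fst b B) (y : ℕ) : ∃ n, y < n ∧ n ≤ 2 * y + 2 ∧ ∀ p, tl B p n = false := by
  by_contra hcon
  push Not at hcon
  have h1 : ∀ n, y < n → n ≤ 2 * y + 2 → ∃ p, tl B p n = true := by
    intro n hn1 hn2
    obtain ⟨p, hp⟩ := hcon n hn1 hn2
    exact ⟨p, by simpa using hp⟩
  choose! p hp using h1
  obtain ⟨v1, v2⟩ := (H.tl_iff _ _).1 (hp (2 * y + 2) (by omega) le_rfl)
  have u1 := H.pos_lt v1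
  have u2 := H.pos_ge v1
  generalize hK : (p (2 * y + 2)).unpair.1 = K at v1 v2 u1 u2
  have u3 := NN_ge b K
  have hcard : (Finset.Ioc y (2 * y + 2)).card ≤ (Finset.range (K + 1) ×ˢ Finset.range (b K)).card := by
    apply Finset.card_le_card_of_injOn (fun n => (p n).unpair)
    · intro n hn
      have hn' := Finset.mem_Ioc.1 hn
      obtain ⟨w1, w2⟩ := (H.tl_iff _ _).1 (hp n hn'.1 hn'.2)
      have w3 := H.pos_ge w1
      have w4 : (p n).unpair.1 < K + 1 := by
        rw [← (NN_mono b).lt_iff_lt]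
        omega
      have w5 := ((H.val_iff _ _).1 w1).1
      have w6 : b (p n).unpair.1 ≤ b K := H.mono.monotone (by omega)
      simp only [Finset.coe_product, Finset.coe_range, Set.mem_prod, Set.mem_Iio]
      exact ⟨w4, by omega⟩
    · intro m hm n hn hmn
      have hm' := Finset.mem_Ioc.1 hm
      have hn' := Finset.mem_Ioc.1 hn
      obtain ⟨_, w2⟩ := (H.tl_iff _ _).1 (hp n hn'.1 hn'.2)
      obtain ⟨_, w4⟩ := (H.tl_iff _ _).1 (hp m hm'.1 hm'.2)
      beta_reduce at hmn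
      rw [hmn] at w4
      omega
  rw [Nat.card_Ioc, Finset.card_product, Finset.card_range, Finset.card_range] at hcard
  have h2 := H.le_b K
  have h3 : (K + 1) * b K ≤ b K * b K := Nat.mul_le_mul_right _ (by omega)
  omega

theorem Fst.next (H : Fst b B) (y : ℕ) : ∃ l, y < l ∧ l ≤ 4 * y + 4 ∧ Dom B l = true := by
  obtain ⟨n, h1, h2, h3⟩ := H.free y
  exact ⟨2 * n, by omega, by omega, (H.dom_even n).2 h3⟩

end Pool.Agent.R813.LV
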