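import Mathlib
import Pool.Agent.R652.PunctDefs
import Pool.Agent.R813.LV.Copy

set_option autoImplicit false

/-! Levitz's class and the copy. -/

namespace Pool.Agent.R813.LV

open Pool.Agent.R557.CS Pool.Agent.R652.Punct

/-- Levitz's class: the smallest class of functions on the natural numbers which contains the
constants `0` and `1` and the identity and which is closed under addition, multiplication,
`f ↦ (x ↦ n ^ f x)` for `1 ≤ n`, and `f ↦ (x ↦ x ^ f x)`. -/
inductive Levitz : (ℕ → ℕ) → Prop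
  | zero : Levitz (fun _ => 0)
  | one : Levitz (fun _ => 1)
  | id : Levitz (fun x => x)
  | add {f g : ℕ → ℕ} : Levitz f → Levitz g → Levitz (fun x => f x + g x)
  | mul {f g : ℕ → ℕ} : Levitz f → Levitz g → Levitz (fun x => f x * g x)
  | cpow {f : ℕ → ℕ} (n : ℕ) : 1 ≤ n → Levitz f → Levitz (fun x => n ^ f x)
  | xpow {f : ℕ → ℕ} : Levitz f → Levitz (fun x => x ^ f x)

theorem Levitz.primrec {f : ℕ → ℕ} (h : Levitz f) : Primrec f := by
  induction h with
  | zero => exact Primrec.const 0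
  | one => exact Primrec.const 1
  | id => exact Primrec.id
  | add _ _ h1 h2 => exact p_add h1 h2
  | mul _ _ h1 h2 => exact p_mul h1 h2
  | cpow n _ _ h1 => exact p_pow.comp (Primrec.const n) h1
  | xpow _ h1 => exact p_pow.comp Primrec.id h1

/-- a code of the constant `n` -/
def num : ℕ → ℕ
  | 0 => 0
  | 1 => 0
  | n + 2 => mkAdd (num (n + 1)) 0

theorem eN_zero (m : ℕ) : eN 0 m = 1 := by rw [eN, dec_zero]; rfl

theorem eN_add (a b m : ℕ) : eN (mkAdd a b) m = eN a m + eN b m := by
  rw [eN, dec_mkAdd]; rfl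
theorem eN_mul (a b m : ℕ) : eN (mkMul a b) m = eN a m * eN b m := by
  rw [eN, dec_mkMul]; rfl
theorem eN_pow (a b m : ℕ) : eN (mkPow a b) m = eN a m ^ eN b m := by
  rw [eN, dec_mkPow]; rfl

theorem eN_num (n m : ℕ) : eN (num (n + 1)) m = n + 1 := by
  induction n with
  | zero => exact eN_zero m
  | succ n ih =>
    show eN (mkAdd (num (n + 1)) 0) m = n + 1 + 1
    rw [eN_add, ih, eN_zero]

theorem p_mkAdd : Primrec₂ mkAdd := by
  unfold mkAdd
  exact p_add (p_mul (Primrec.const 3) (Primrec₂.natPair.comp Primrec.fst Primrec.snd))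
    (Primrec.const 2)
theorem p_mkMul : Primrec₂ mkMul := by
  unfold mkMul
  exact p_add (p_mul (Primrec.const 3) (Primrec₂.natPair.comp Primrec.fst Primrec.snd))
    (Primrec.const 3)
theorem p_mkPow : Primrec₂ mkPow := by
  unfold mkPow
  exact p_add (p_mul (Primrec.const 3) (Primrec₂.natPair.comp Primrec.fst Primrec.snd))
    (Primrec.const 4)

theorem Levitz.sub {f : ℕ → ℕ} (h : Levitz f) : (∀ n, 1 ≤ n → f n = 0) ∨
    ∃ σ : ℕ → ℕ, Primrec σ ∧ ∀ c n, 1 ≤ n → eN (σ c) n = f (eN c n) := by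
  induction h with
  | zero => exact Or.inl fun _ _ => rfl
  | one => exact Or.inr ⟨fun _ => 0, Primrec.const 0, fun c n _ => eN_zero n⟩
  | id => exact Or.inr ⟨fun c => c, Primrec.id, fun c n _ => rfl⟩
  | add _ _ h1 h2 =>
    rcases h1 with h1 | ⟨σ, pσ, h1⟩
    · rcases h2 with h2 | ⟨τ, pτ, h2⟩
      · exact Or.inl fun n hn => by beta_reduce; rw [h1 n hn, h2 n hn]
      · refine Or.inr ⟨τ, pτ, fun c n hn => ?_⟩
        beta_reduce
        rw [h2 c n hn, h1 _ (eN_pos c hn), Nat.zero_add]
    · rcases h2 with h2 | ⟨τ, pτ, h2⟩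
      · refine Or.inr ⟨σ, pσ, fun c n hn => ?_⟩
        beta_reduce
        rw [h1 c n hn, h2 _ (eN_pos c hn), Nat.add_zero]
      · refine Or.inr ⟨fun c => mkAdd (σ c) (τ c), p_mkAdd.comp pσ pτ, fun c n hn => ?_⟩
        rw [eN_add, h1 c n hn, h2 c n hn]
  | mul _ _ h1 h2 =>
    rcases h1 with h1 | ⟨σ, pσ, h1⟩
    · exact Or.inl fun n hn => by beta_reduce; rw [h1 n hn, Nat.zero_mul]
    · rcases h2 with h2 | ⟨τ, pτ, h2⟩
      · exact Or.inl fun n hn => by beta_reduce; rw [h2 n hn, Nat.mul_zero]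
      · refine Or.inr ⟨fun c => mkMul (σ c) (τ c), p_mkMul.comp pσ pτ, fun c n hn => ?_⟩
        rw [eN_mul, h1 c n hn, h2 c n hn]
  | cpow m hm _ h1 =>
    obtain ⟨q, rfl⟩ : ∃ q, m = q + 1 := ⟨m - 1, by omega⟩
    rcases h1 with h1 | ⟨σ, pσ, h1⟩
    · refine Or.inr ⟨fun _ => 0, Primrec.const 0, fun c n hn => ?_⟩
      beta_reduce
      rw [eN_zero, h1 _ (eN_pos c hn), pow_zero]
    · refine Or.inr ⟨fun c => mkPow (num (q + 1)) (σ c), p_mkPow.comp (Primrec.const _) pσ,
        fun c n hn => ?_⟩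
      rw [eN_pow, eN_num, h1 c n hn]
  | xpow _ h1 =>
    rcases h1 with h1 | ⟨σ, pσ, h1⟩
    · refine Or.inr ⟨fun _ => 0, Primrec.const 0, fun c n hn => ?_⟩
      beta_reduce
      rw [eN_zero, h1 _ (eN_pos c hn), pow_zero]
    · refine Or.inr ⟨fun c => mkPow c (σ c), p_mkPow.comp Primrec.id pσ, fun c n hn => ?_⟩
      rw [eN_pow, h1 c n hn]

variable {b : ℕ → ℕ} {B : ℕ → ℕ → Bool}

theorem Fst.map (H : Fst b B) {f : ℕ → ℕ} (hf : Levitz f) :
    ∃ F : ℕ → ℕ, Primrec F ∧ ∀ l, Dom B l = true → F l = lab B (f (pos b l)) := by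
  have p0 : Primrec (fun l : ℕ => l / 2) := Primrec.nat_div.comp Primrec.id (Primrec.const 2)
  have pk : Primrec (fun l : ℕ => (l / 2).unpair.1) :=
    Primrec.fst.comp (Primrec.unpair.comp p0)
  have pt : Primrec (fun l : ℕ => (l / 2).unpair.2) :=
    Primrec.snd.comp (Primrec.unpair.comp p0)
  have pev : Primrec (fun l : ℕ => lab B (f (l / 2))) := H.p_lab.comp (hf.primrec.comp p0)
  have pc : Primrec (fun l : ℕ => decide (l % 2 = 0)) :=
    p_eq (Primrec.nat_mod.comp Primrec.id (Primrec.const 2)) (Primrec.const 0)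
  have hpos : ∀ p : ℕ, 1 ≤ NN b p := fun p => by have := NN_ge b p; omega
  rcases hf.sub with h0 | ⟨σ, pσ, hσ⟩
  · refine ⟨fun l => bif decide (l % 2 = 0) then lab B (f (l / 2)) else lab B 0,
      Primrec.cond pc pev (Primrec.const _), ?_⟩
    intro l hl
    rcases Nat.even_or_odd' l with ⟨n, rfl | rfl⟩
    · have e1 : 2 * n % 2 = 0 := by omega
      have e2 : 2 * n / 2 = n := by omega
      simp only [e1, e2, decide_true, cond_true, pos_even]
    · have e1 : (2 * n + 1) % 2 = 1 := by omega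
      simp only [e1, pos_odd]
      rw [h0 _ (eN_pos _ (hpos _))]
      rfl
  · set u : ℕ → ℕ := fun l => can (σ (l / 2).unpair.2) with hu
    have pu : Primrec u := p_can.comp (pσ.comp pt)
    refine ⟨fun l => bif decide (l % 2 = 0) then lab B (f (l / 2)) else
      bif nonc (u l) then (bif B (l / 2).unpair.1 (u l) then
        lab B (eN (u l) (Nn B (l / 2).unpair.1 (u l))) else
        2 * Nat.pair (l / 2).unpair.1 (u l) + 1) else lab B (eN (u l) 1), ?_, ?_⟩
    · refine Primrec.cond pc pev (Primrec.cond (p_nonc.comp pu) (Primrec.cond (H.pB.comp pk pu)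
        (H.p_lab.comp (p_eN.comp pu (H.p_Nn.comp pk pu)))
        (p_add (p_mul (Primrec.const 2) (Primrec₂.natPair.comp pk pu)) (Primrec.const 1)))
        (H.p_lab.comp (p_eN.comp pu (Primrec.const 1))))
    · intro l hl
      rcases Nat.even_or_odd' l with ⟨n, rfl | rfl⟩
      · have e1 : 2 * n % 2 = 0 := by omega
        have e2 : 2 * n / 2 = n := by omega
        simp only [e1, e2, decide_true, cond_true, pos_even]
      · have e1 : ¬ (2 * n + 1) % 2 = 0 := by omega
        have e2 : (2 * n + 1) / 2 = n := by omega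
        have e3 : f (pos b (2 * n + 1)) = eN (u (2 * n + 1)) (NN b n.unpair.1) := by
          rw [pos_odd, ← hσ _ _ (hpos _)]
          simp only [hu, e2]
          rw [(can_spec _).1 _ (hpos _)]
        rw [e3]
        simp only [e2, decide_eq_false e1, cond_false]
        generalize hv : u (2 * n + 1) = v
        have hcv : can v = v := by rw [← hv, hu]; exact can_can _
        generalize hk : n.unpair.1 = k
        cases h1 : nonc v with
        | false =>
          rw [cond_false, nonc_false h1 _ (hpos _)]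
        | true =>
          rw [cond_true]
          cases h2 : B k v with
          | true =>
            rw [cond_true, H.Nn_eq ((H.iff _ _).1 h2)]
          | false =>
            rw [cond_false]
            have h3 : v < b k := by
              have : ¬ b k ≤ v := by rw [← H.iff, h2]; simp
              omega
            have h4 : Dom B (2 * Nat.pair k v + 1) = true := by
              rw [dom_odd, Nat.unpair_pair]
              exact (H.val_iff _ _).2 ⟨h3, h1, hcv⟩
            have h5 := H.lab_pos h4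
            rw [pos_odd, Nat.unpair_pair] at h5
            exact h5.symm

/-- the copy -/
theorem exists_copy : ∃ A : PunctualCopy,
    (∀ f : ℕ → ℕ, Levitz f → Primrec fun n => A.iso (f (A.iso.symm n))) ∧
    Primrec A.iso ∧ ¬ Primrec A.iso.symm := by
  obtain ⟨b, B, pB, hB, hm, h2, hfast⟩ := exists_fast
  have H : Fst b B := ⟨pB, hB, hm, h2⟩
  obtain ⟨en, rk, pen, prk, hen, hrk, hen2⟩ := exists_enum (Dom B) H.p_Dom (fun y => 4 * y + 4)
    (p_add (p_mul (Primrec.const 4) Primrec.id) (Primrec.const 4)) (H.next)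
  have hli : ∀ n, pos b (en (rk (lab B n))) = n := fun n => by
    rw [hen2 _ (H.lab_spec n).1, (H.lab_spec n).2]
  have hri : ∀ i, rk (lab B (pos b (en i))) = i := fun i => by
    rw [H.lab_pos (hen i), hrk]
  have key : ∀ f : ℕ → ℕ, Levitz f → Primrec fun i => rk (lab B (f (pos b (en i)))) := by
    intro f hf
    obtain ⟨F, pF, hF⟩ := H.map hf
    exact (prk.comp (pF.comp pen)).of_eq fun i => by rw [hF _ (hen i)]
  refine ⟨⟨fun i => rk (lab B (pos b (en i) + 1)), key _ (Levitz.id.add Levitz.one),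
    ⟨fun n => rk (lab B n), fun i => pos b (en i), hli, hri⟩, ?_⟩, ?_, ?_, ?_⟩
  · intro n
    show rk (lab B (n + 1)) = rk (lab B (pos b (en (rk (lab B n))) + 1))
    rw [hli]
  · exact key
  · exact prk.comp H.p_lab
  · intro hq
    change Primrec (fun i => pos b (en i)) at hq
    have hg : Primrec fun k => pos b (en (rk (2 * Nat.pair k 1 + 1))) :=
      hq.comp (prk.comp (p_add (p_mul (Primrec.const 2)
        (Primrec₂.natPair.comp Primrec.id (Primrec.const 1))) (Primrec.const 1)))
    obtain ⟨k, hk⟩ := hfast _ hg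
    have h4 : Dom B (2 * Nat.pair k 1 + 1) = true := by
      rw [dom_odd, Nat.unpair_pair]
      exact (H.val_iff _ _).2 ⟨by have := H.le_b k; show 1 < b k; omega, nonc_one, can_one⟩
    rw [hen2 _ h4, pos_odd, Nat.unpair_pair] at hk
    have h5 : eN 1 (NN b k) = NN b k := by rw [eN, dec_one]; rfl
    have h6 := H.b_le_NN k
    simp only [h5] at hk
    omega

theorem primrec_symm_of_standard (A : PunctualCopy) (h : A.Standard) : Primrec A.iso.symm := by
  have h1 : Primrec (fun v : Fin 1 → ℕ => A.iso.symm (A.iso (v 0) + 1)) := by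
    rw [← h 1]
    unfold PunctualCopy.PrimrecOn
    refine ((Primrec.succ.comp (Primrec.fin_app.comp Primrec.id (Primrec.const 0)) :
      Primrec (fun v : Fin 1 → ℕ => Nat.succ (v 0)))).of_eq fun v => ?_
    simp [PunctualCopy.tr]
  have h2 : Primrec (fun x : ℕ => (fun _ : Fin 1 => x)) :=
    Primrec.fin_curry.2 Primrec.fst
  have h3 : Primrec (fun x : ℕ => A.iso.symm (A.iso x + 1)) := h1.comp h2
  refine (Primrec.nat_rec' (f := fun n : ℕ => n) (g := fun _ => A.iso.symm 0)
    (h := fun _ p => A.iso.symm (A.iso p.2 + 1)) Primrec.id (Primrec.const _)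
    (h3.comp (Primrec.snd.comp Primrec.snd))).of_eq fun n => ?_
  induction n with
  | zero => rfl
  | succ n ih =>
    simp only [] at ih ⊢
    rw [ih]
    simp

theorem main : ∃ A : PunctualCopy,
    (∀ f : ℕ → ℕ, Levitz f → Primrec fun n => A.iso (f (A.iso.symm n))) ∧
    Primrec A.iso ∧ ¬ Primrec A.iso.symm ∧ ¬ A.Standard := by
  obtain ⟨A, h1, h2, h3⟩ := exists_copy
  exact ⟨A, h1, h2, h3, fun h => h3 (primrec_symm_of_standard A h)⟩

theorem not_basis : ¬ IsBasis (fun k f => ∃ g : ℕ → ℕ, Levitz g ∧ k = 1 ∧ ∀ v i, f v = g (v i)) := by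
  intro hb
  obtain ⟨A, h1, _, _, h4⟩ := main
  apply h4
  apply hb A
  rintro k f ⟨g, hg, rfl, hf⟩
  unfold PunctualCopy.PrimrecOn
  refine ((h1 g hg).comp (Primrec.fin_app.comp Primrec.id (Primrec.const 0) :
      Primrec (fun v : Fin 1 → ℕ => v 0))).of_eq fun v => ?_
  simp only [PunctualCopy.tr]
  rw [hf _ 0]
  rfl

end Pool.Agent.R813.LV
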